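import Pool.Agent.H87.GR.Stm

/-!
Project GR, part BEZ: the ideal of a coprime pair of `ℝ[x][y]` contains a nonzero polynomial in
`x` alone.
-/

namespace Pool.Agent.H87.GR.BEZ

open Polynomial IsLocalization
open scoped nonZeroDivisors

/-- Every nonzero polynomial over the fraction field has a primitive model. -/
lemma exists_primitive {R K : Type*} [CommRing R] [IsDomain R] [NormalizedGCDMonoid R] [Field K]
    [Algebra R K] [IsFractionRing R K] {p : K[X]} (h0 : p ≠ 0) :
    ∃ d : R[X], d.IsPrimitive ∧ d.map (algebraMap R K) ∣ p ∧ (IsUnit d → IsUnit p) := by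
  obtain ⟨b, hb, hc⟩ := integerNormalization_spec R⁰ p
  refine ⟨(integerNormalization R⁰ p).primPart, isPrimitive_primPart _, ?_,
    fun h => isUnit_or_eq_zero_of_isUnit_integerNormalization_primPart h0 h⟩
  have h1 : ((integerNormalization R⁰ p).primPart).map (algebraMap R K) ∣ b • p := by
    rw [← hc]
    exact map_dvd (algebraMap R K) (primPart_dvd _)
  have hb0 : algebraMap R K b ≠ 0 := by
    intro h
    exact nonZeroDivisors.ne_zero hb
      ((injective_iff_map_eq_zero (algebraMap R K)).1 (IsFractionRing.injective _ _) _ h)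
  have h2 : p = C ((algebraMap R K b)⁻¹) * (b • p) := by
    rw [Algebra.smul_def, Polynomial.algebraMap_apply, ← mul_assoc, ← C_mul, inv_mul_cancel₀ hb0,
      C_1, one_mul]
  exact (h1.mul_left (C ((algebraMap R K b)⁻¹))).trans (dvd_of_eq h2.symm)

theorem part : StmBEZ := by
  intro a ha
  classical
  let _ : NormalizedGCDMonoid ℝ[X] := Classical.arbitrary _
  let K := FractionRing ℝ[X]
  have hinj : Function.Injective (algebraMap ℝ[X] K) := IsFractionRing.injective _ _
  have hrel : IsRelPrime (a.1.map (algebraMap ℝ[X] K)) (a.2.map (algebraMap ℝ[X] K)) := by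
    intro d h1 h2
    by_cases hd0 : d = 0
    · exfalso
      subst hd0
      rw [zero_dvd_iff] at h1 h2
      have e1 : a.1 = 0 := map_injective _ hinj (by rw [h1, Polynomial.map_zero])
      have e2 : a.2 = 0 := map_injective _ hinj (by rw [h2, Polynomial.map_zero])
      have := ha (d := 0) (by rw [e1]) (by rw [e2])
      exact not_isUnit_zero this
    · obtain ⟨d', hprim, hdvd, hunit⟩ := exists_primitive (R := ℝ[X]) (K := K) hd0
      apply hunit
      apply ha
      · exact hprim.dvd_of_fraction_map_dvd_fraction_map (K := K) (hdvd.trans h1)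
      · exact hprim.dvd_of_fraction_map_dvd_fraction_map (K := K) (hdvd.trans h2)
  obtain ⟨A', B', hAB⟩ := hrel.isCoprime
  obtain ⟨b1, hb1, hc1⟩ := integerNormalization_spec ℝ[X]⁰ A'
  obtain ⟨b2, hb2, hc2⟩ := integerNormalization_spec ℝ[X]⁰ B'
  have h1 := nonZeroDivisors.ne_zero hb1
  have h2 := nonZeroDivisors.ne_zero hb2
  refine ⟨b1 * b2, mul_ne_zero h1 h2, C b2 * integerNormalization ℝ[X]⁰ A',
    C b1 * integerNormalization ℝ[X]⁰ B', ?_⟩
  apply map_injective (algebraMap ℝ[X] K) hinj
  rw [Polynomial.map_add, Polynomial.map_mul, Polynomial.map_mul, Polynomial.map_mul,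
    Polynomial.map_mul, hc1, hc2, map_C, map_C, map_C, Algebra.smul_def, Algebra.smul_def,
    Polynomial.algebraMap_apply, Polynomial.algebraMap_apply, map_mul, C_mul]
  linear_combination (C (algebraMap ℝ[X] K b1) * C (algebraMap ℝ[X] K b2)) * hAB

end Pool.Agent.H87.GR.BEZ
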