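import Pool.Agent.H87.GR.Stm

/-!
Project GR, part BLE: existence of the blow-up of a coprime pair.
-/

namespace Pool.Agent.H87.GR.BLE

open Polynomial

lemma bl_eq_zero {p : P2} (h : bl p = 0) : p = 0 := by
  ext1 n
  have h1 := bl_coeff p n
  rw [h, coeff_zero] at h1
  have h2 : (X : ℝ[X]) ^ n ≠ 0 := pow_ne_zero _ X_ne_zero
  rcases mul_eq_zero.1 h1.symm with h3 | h3
  · rw [h3, coeff_zero]
  · exact absurd h3 h2

/-- for two polynomials not both zero, a maximal power of `t` divides both -/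
lemma exists_max (t p q : P2) (ht : Prime t) (h : p ≠ 0 ∨ q ≠ 0) :
    ∃ (m : ℕ) (p1 q1 : P2), p = t ^ m * p1 ∧ q = t ^ m * q1 ∧ ¬ (t ∣ p1 ∧ t ∣ q1) := by
  classical
  have hfin : ∃ n, ¬ (t ^ n ∣ p ∧ t ^ n ∣ q) := by
    rcases h with h | h
    · have hf : FiniteMultiplicity t p :=
        FiniteMultiplicity.of_prime_left ht h
      obtain ⟨n, hn⟩ := hf
      exact ⟨n + 1, fun h => hn h.1⟩
    · have hf : FiniteMultiplicity t q :=
        FiniteMultiplicity.of_prime_left ht h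
      obtain ⟨n, hn⟩ := hf
      exact ⟨n + 1, fun h => hn h.2⟩
  have h0 : Nat.find hfin ≠ 0 := by
    intro h0
    have := Nat.find_spec hfin
    rw [h0] at this
    simp at this
  obtain ⟨m, hm⟩ := Nat.exists_eq_succ_of_ne_zero h0
  have hmin := Nat.find_min hfin (m := m) (by omega)
  have hsp := Nat.find_spec hfin
  rw [hm] at hsp
  rw [not_not] at hmin
  obtain ⟨⟨p1, hp1⟩, ⟨q1, hq1⟩⟩ := hmin
  refine ⟨m, p1, q1, hp1, hq1, ?_⟩
  rintro ⟨⟨p2, hp2⟩, ⟨q2, hq2⟩⟩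
  apply hsp
  refine ⟨⟨p2, ?_⟩, ⟨q2, ?_⟩⟩
  · rw [hp1, hp2, Nat.succ_eq_add_one, pow_succ, mul_assoc]
  · rw [hq1, hq2, Nat.succ_eq_add_one, pow_succ, mul_assoc]

theorem part : StmBLE := by
  intro a ha
  have hne : bl a.1 ≠ 0 ∨ bl a.2 ≠ 0 := by
    by_contra h
    push Not at h
    have e1 := bl_eq_zero h.1
    have e2 := bl_eq_zero h.2
    have := ha (d := 0) (by rw [e1]) (by rw [e2])
    exact not_isUnit_zero this
  have hp : Prime (C X : P2) := prime_C_iff.2 prime_X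
  obtain ⟨m, p1, q1, h1, h2, h3⟩ := exists_max (C X) (bl a.1) (bl a.2) hp hne
  exact ⟨(p1, q1), m, h1, h2, h3⟩

end Pool.Agent.H87.GR.BLE
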