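import Pool.Agent.H87.GR.Stm

/-!
Project GR, part BLOW: if all the points of the exceptional divisor are good, the origin is good.
-/

namespace Pool.Agent.H87.GR.BLOW

open Polynomial Topology Filter

universe u

variable {M : Type} {B : Type u} [MetricSpace M] [AddCommGroup B]

lemma seg_congr (D : Coc M B) {Ψ Ψ' : ℝ × ℝ → M} {p q p' q' : ℝ × ℝ}
    (h : ∀ t : ℝ, Ψ (p + t • (q - p)) = Ψ' (p' + t • (q' - p'))) :
    seg D Ψ p q = seg D Ψ' p' q' := by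
  unfold seg
  congr 1
  funext t
  exact h t

lemma eq_of_punctured {f g : ℝ → M} {a : ℝ} (hf : ContinuousAt f a) (hg : ContinuousAt g a)
    (h : ∀ t, t ≠ a → f t = g t) : f a = g a := by
  have h1 : Tendsto f (𝓝[≠] a) (𝓝 (f a)) := hf.tendsto.mono_left nhdsWithin_le_nhds
  have h2 : Tendsto f (𝓝[≠] a) (𝓝 (g a)) := by
    refine (hg.tendsto.mono_left nhdsWithin_le_nhds).congr' ?_
    filter_upwards [self_mem_nhdsWithin] with t ht
    exact (h t ht).symm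
  exact tendsto_nhds_unique h1 h2

lemma contAt {D : Coc M B} {Ψ : ℝ × ℝ → M} {Z : Set (ℝ × ℝ)} (h : Adm D Ψ Z) {z : ℝ × ℝ}
    (hz : z ∉ Z) : ContinuousAt Ψ z :=
  h.cont.continuousAt (h.fin.isClosed.isOpen_compl.mem_nhds hz)

lemma ev_small {Z : Set (ℝ × ℝ)} (hZ : Z.Finite) (f : ℝ × ℝ → ℝ) :
    ∀ᶠ ρ in 𝓝[>] (0 : ℝ), ∀ z ∈ Z, |f z| ≤ ρ → f z = 0 := by
  rw [eventually_all_finite hZ]
  intro z _
  by_cases h : f z = 0
  · exact Eventually.of_forall fun _ _ => h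
  · have hp : 0 < |f z| := abs_pos.2 h
    filter_upwards [Ioo_mem_nhdsGT hp] with ρ hρ h'
    exact absurd h' (not_le.2 hρ.2)

theorem part : StmBLOW.{u} := by
  intro hVC hS hR hA h0 M B _ _ D Ψ Ψ1 Ψ2 Z Z1 Z2 h2B aΨ a1 a2 e1 e2 g1 g2 ε hε
  have hneg : ∀ b : B, -b = b := fun b => by
    rw [neg_eq_iff_add_eq_zero]; exact h2B b
  -- the choice of `Λ`
  obtain ⟨Λ, hΛ, hΛ1, hΛ2⟩ : ∃ Λ : ℝ, 0 < Λ ∧ (∀ z ∈ Z1, |z.2| < Λ) ∧
      (∀ z ∈ Z2, |z.2| ≤ 1 / Λ → z.2 = 0) := by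
    have h1 := ev_small a2.fin (fun z => z.2)
    have h2 : ∀ᶠ ρ in 𝓝[>] (0 : ℝ), ∀ z ∈ Z1, |z.2| < 1 / ρ := by
      rw [eventually_all_finite a1.fin]
      intro z _
      have hp : 0 < 1 / (|z.2| + 1) := by positivity
      filter_upwards [Ioo_mem_nhdsGT hp] with ρ hρ
      have h3 : ρ * (|z.2| + 1) < 1 := by
        have := hρ.2
        rwa [lt_div_iff₀ (by positivity)] at this
      rw [lt_div_iff₀ hρ.1]
      nlinarith [hρ.1]
    obtain ⟨ρ, hρ1, hρ2, hρ⟩ := (h1.and (h2.and self_mem_nhdsWithin)).exists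
    have hρ' : (0 : ℝ) < ρ := hρ
    refine ⟨1 / ρ, by positivity, hρ2, fun z hz h => hρ1 z hz ?_⟩
    simpa using h
  -- the choice of `r`
  obtain ⟨r, hr, hrε, hrΛε, hZ, hZ1, hZ2⟩ : ∃ r : ℝ, 0 < r ∧ r < ε ∧ r * Λ < ε ∧
      (∀ z ∈ Z, |z.1| ≤ r → |z.2| ≤ r * Λ → z.1 = 0 ∧ z.2 = 0) ∧
      (∀ z ∈ Z1, |z.1| ≤ r → z.1 = 0) ∧ (∀ z ∈ Z2, |z.1| ≤ r * Λ → z.1 = 0) := by
    have h1 := ev_small aΨ.fin (fun z => z.1)
    have h2 := ev_small aΨ.fin (fun z => z.2 / Λ)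
    have h3 := ev_small a1.fin (fun z => z.1)
    have h4 := ev_small a2.fin (fun z => z.1 / Λ)
    have h5 : ∀ᶠ ρ in 𝓝[>] (0 : ℝ), ρ ∈ Set.Ioo 0 ε := Ioo_mem_nhdsGT hε
    have h6 : ∀ᶠ ρ in 𝓝[>] (0 : ℝ), ρ ∈ Set.Ioo 0 (ε / Λ) := Ioo_mem_nhdsGT (by positivity)
    obtain ⟨ρ, k1, k2, k3, k4, k5, k6⟩ := (h1.and (h2.and (h3.and (h4.and (h5.and h6))))).exists
    have key : ∀ x : ℝ, |x| ≤ ρ * Λ → |x / Λ| ≤ ρ := by
      intro x hx
      rw [abs_div, abs_of_pos hΛ, div_le_iff₀ hΛ]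
      exact hx
    refine ⟨ρ, k5.1, k5.2, ?_, ?_, k3, ?_⟩
    · have := k6.2
      rwa [lt_div_iff₀ hΛ] at this
    · intro z hz hz1 hz2
      refine ⟨k1 z hz hz1, ?_⟩
      have := k2 z hz (key _ hz2)
      simpa [hΛ.ne'] using this
    · intro z hz hz1
      have := k4 z hz (key _ hz1)
      simpa [hΛ.ne'] using this
  have hrΛ : 0 < r * Λ := by positivity
  refine ⟨r, r * Λ, hr, hrε, hrΛ, hrΛε, ?_⟩
  -- the two charts
  have c1 : bd D Ψ1 (-r) r (-Λ) Λ = 0 := by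
    refine hR hS hA h0 M B D Ψ1 Z1 (-r) r (-Λ) Λ h2B a1 (by linarith) (by linarith) ?_ ?_
    · intro z hz
      refine ⟨fun h => ?_, fun h => ?_, fun h => ?_, fun h => ?_⟩
      · have := hZ1 z hz (by rw [h, abs_neg, abs_of_pos hr]); rw [this] at h; linarith
      · have := hZ1 z hz (by rw [h, abs_of_pos hr]); rw [this] at h; linarith
      · have := hΛ1 z hz; rw [h, abs_neg, abs_of_pos hΛ] at this; exact lt_irrefl _ this
      · have := hΛ1 z hz; rw [h, abs_of_pos hΛ] at this; exact lt_irrefl _ this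
    · intro w hw k1 k2 _ _
      have : w.1 = 0 := hZ1 w hw (abs_le.2 ⟨k1.le, k2.le⟩)
      have hw' : w = (0, w.2) := by ext <;> simp [this]
      rw [hw']
      exact g1 w.2
  have c2 : bd D Ψ2 (-(r * Λ)) (r * Λ) (-(1 / Λ)) (1 / Λ) = 0 := by
    have hi : 0 < 1 / Λ := by positivity
    refine hR hS hA h0 M B D Ψ2 Z2 (-(r * Λ)) (r * Λ) (-(1 / Λ)) (1 / Λ) h2B a2 (by linarith)
      (by linarith) ?_ ?_
    · intro z hz
      refine ⟨fun h => ?_, fun h => ?_, fun h => ?_, fun h => ?_⟩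
      · have := hZ2 z hz (by rw [h, abs_neg, abs_of_pos hrΛ]); rw [this] at h; linarith
      · have := hZ2 z hz (by rw [h, abs_of_pos hrΛ]); rw [this] at h; linarith
      · have := hΛ2 z hz (by rw [h, abs_neg, abs_of_pos hi]); rw [this] at h; linarith
      · have := hΛ2 z hz (by rw [h, abs_of_pos hi]); rw [this] at h; linarith
    · intro w hw k1 k2 k3 k4
      have q1 : w.1 = 0 := hZ2 w hw (abs_le.2 ⟨k1.le, k2.le⟩)
      have q2 : w.2 = 0 := hΛ2 w hw (abs_le.2 ⟨k3.le, k4.le⟩)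
      have hw' : w = (0, 0) := by ext <;> simp [q1, q2]
      rw [hw']
      exact g2
  -- comparison of the sides
  -- right side of the rectangle = right side of chart 1
  have s1 : seg D Ψ1 (r, -Λ) (r, Λ) = seg D Ψ (r, -(r * Λ)) (r, r * Λ) := by
    apply seg_congr
    intro t
    have : ((r, -Λ) : ℝ × ℝ) + t • ((r, Λ) - (r, -Λ)) = (r, -Λ + t * (Λ + Λ)) := by
      ext <;> simp
    rw [this, e1 _ _ hr.ne']
    congr 1
    ext <;> simp
    ring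
  -- left side of chart 1
  have s2 : seg D Ψ1 (-r, -Λ) (-r, Λ) = seg D Ψ (-r, r * Λ) (-r, -(r * Λ)) := by
    apply seg_congr
    intro t
    have : ((-r, -Λ) : ℝ × ℝ) + t • ((-r, Λ) - (-r, -Λ)) = (-r, -Λ + t * (Λ + Λ)) := by
      ext <;> simp
    rw [this, e1 _ _ (by linarith)]
    congr 1
    ext <;> simp
    ring
  -- right side of chart 2 = top
  have s3 : seg D Ψ2 (r * Λ, -(1 / Λ)) (r * Λ, 1 / Λ) = seg D Ψ (-r, r * Λ) (r, r * Λ) := by
    apply seg_congr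
    intro t
    have : ((r * Λ, -(1 / Λ)) : ℝ × ℝ) + t • ((r * Λ, 1 / Λ) - (r * Λ, -(1 / Λ))) =
        (r * Λ, -(1 / Λ) + t * (1 / Λ + 1 / Λ)) := by
      ext <;> simp
    rw [this, e2 _ _ hrΛ.ne']
    congr 1
    ext
    · simp
      field_simp
    · simp
  -- left side of chart 2 = bottom reversed
  have s4 : seg D Ψ2 (-(r * Λ), -(1 / Λ)) (-(r * Λ), 1 / Λ) =
      seg D Ψ (r, -(r * Λ)) (-r, -(r * Λ)) := by
    apply seg_congr
    intro t
    have : ((-(r * Λ), -(1 / Λ)) : ℝ × ℝ) + t • ((-(r * Λ), 1 / Λ) - (-(r * Λ), -(1 / Λ))) =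
        (-(r * Λ), -(1 / Λ) + t * (1 / Λ + 1 / Λ)) := by
      ext <;> simp
    rw [this, e2 _ _ (by linarith)]
    congr 1
    ext
    · simp
      field_simp
      ring
    · simp
  -- top sides of the charts
  have n1 : ∀ y : ℝ, |y| = Λ → ((0 : ℝ), y) ∉ Z1 := by
    intro y hy h
    have := hΛ1 _ h
    simp only at this
    linarith
  have n2 : ∀ y : ℝ, |y| = 1 / Λ → ((0 : ℝ), y) ∉ Z2 := by
    intro y hy h
    have := hΛ2 _ h hy.le
    simp only at this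
    rw [this, abs_zero] at hy
    have hi : 0 < 1 / Λ := by positivity
    linarith
  have s5 : seg D Ψ1 (-r, Λ) (r, Λ) = seg D Ψ2 (-(r * Λ), 1 / Λ) (r * Λ, 1 / Λ) := by
    apply seg_congr
    have q1 : ∀ t : ℝ, ((-r, Λ) : ℝ × ℝ) + t • ((r, Λ) - (-r, Λ)) = (r * (2 * t - 1), Λ) := by
      intro t; ext
      · simp; ring
      · simp
    have q2 : ∀ t : ℝ, ((-(r * Λ), 1 / Λ) : ℝ × ℝ) + t • ((r * Λ, 1 / Λ) - (-(r * Λ), 1 / Λ)) =
        (r * Λ * (2 * t - 1), 1 / Λ) := by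
      intro t; ext
      · simp; ring
      · simp
    simp only [q1, q2]
    have hmain : ∀ t : ℝ, t ≠ 1 / 2 →
        Ψ1 (r * (2 * t - 1), Λ) = Ψ2 (r * Λ * (2 * t - 1), 1 / Λ) := by
      intro t ht
      have h3 : 2 * t - 1 ≠ 0 := fun h => ht (by linarith)
      rw [e1 _ _ (mul_ne_zero hr.ne' h3), e2 _ _ (mul_ne_zero hrΛ.ne' h3)]
      congr 1
      ext
      · simp; field_simp
      · simp; ring
    intro t
    by_cases ht : t = 1 / 2
    · subst ht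
      refine eq_of_punctured (f := fun t : ℝ => Ψ1 (r * (2 * t - 1), Λ))
        (g := fun t : ℝ => Ψ2 (r * Λ * (2 * t - 1), 1 / Λ)) ?_ ?_ hmain
      · have hc : ContinuousAt Ψ1 (r * (2 * (1 / 2 : ℝ) - 1), Λ) := by
          have : (r * (2 * (1 / 2 : ℝ) - 1), Λ) = ((0 : ℝ), Λ) := by norm_num
          rw [this]
          exact contAt a1 (n1 _ (abs_of_pos hΛ))
        exact ContinuousAt.comp (f := fun t : ℝ => (r * (2 * t - 1), Λ)) (g := Ψ1) hc (by fun_prop)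
      · have hc : ContinuousAt Ψ2 (r * Λ * (2 * (1 / 2 : ℝ) - 1), 1 / Λ) := by
          have : (r * Λ * (2 * (1 / 2 : ℝ) - 1), 1 / Λ) = ((0 : ℝ), 1 / Λ) := by norm_num
          rw [this]
          exact contAt a2 (n2 _ (abs_of_pos (by positivity)))
        exact ContinuousAt.comp (f := fun t : ℝ => (r * Λ * (2 * t - 1), 1 / Λ)) (g := Ψ2) hc
          (by fun_prop)
    · exact hmain t ht
  -- bottom sides of the charts
  have s6 : seg D Ψ1 (r, -Λ) (-r, -Λ) = seg D Ψ2 (-(r * Λ), -(1 / Λ)) (r * Λ, -(1 / Λ)) := by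
    apply seg_congr
    have q1 : ∀ t : ℝ, ((r, -Λ) : ℝ × ℝ) + t • ((-r, -Λ) - (r, -Λ)) = (r * (1 - 2 * t), -Λ) := by
      intro t; ext
      · simp; ring
      · simp
    have q2 : ∀ t : ℝ, ((-(r * Λ), -(1 / Λ)) : ℝ × ℝ) +
        t • ((r * Λ, -(1 / Λ)) - (-(r * Λ), -(1 / Λ))) =
        (r * Λ * (2 * t - 1), -(1 / Λ)) := by
      intro t; ext
      · simp; ring
      · simp
    simp only [q1, q2]
    have hmain : ∀ t : ℝ, t ≠ 1 / 2 →
        Ψ1 (r * (1 - 2 * t), -Λ) = Ψ2 (r * Λ * (2 * t - 1), -(1 / Λ)) := by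
      intro t ht
      have h3 : 2 * t - 1 ≠ 0 := fun h => ht (by linarith)
      have h4 : 1 - 2 * t ≠ 0 := fun h => ht (by linarith)
      rw [e1 _ _ (mul_ne_zero hr.ne' h4), e2 _ _ (mul_ne_zero hrΛ.ne' h3)]
      congr 1
      ext
      · simp; field_simp; ring
      · simp; ring
    intro t
    by_cases ht : t = 1 / 2
    · subst ht
      refine eq_of_punctured (f := fun t : ℝ => Ψ1 (r * (1 - 2 * t), -Λ))
        (g := fun t : ℝ => Ψ2 (r * Λ * (2 * t - 1), -(1 / Λ))) ?_ ?_ hmain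
      · have hc : ContinuousAt Ψ1 (r * (1 - 2 * (1 / 2 : ℝ)), -Λ) := by
          have : (r * (1 - 2 * (1 / 2 : ℝ)), -Λ) = ((0 : ℝ), -Λ) := by norm_num
          rw [this]
          exact contAt a1 (n1 _ (by rw [abs_neg, abs_of_pos hΛ]))
        exact ContinuousAt.comp (f := fun t : ℝ => (r * (1 - 2 * t), -Λ)) (g := Ψ1) hc
          (by fun_prop)
      · have hc : ContinuousAt Ψ2 (r * Λ * (2 * (1 / 2 : ℝ) - 1), -(1 / Λ)) := by
          have : (r * Λ * (2 * (1 / 2 : ℝ) - 1), -(1 / Λ)) = ((0 : ℝ), -(1 / Λ)) := by norm_num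
          rw [this]
          exact contAt a2 (n2 _ (by rw [abs_neg, abs_of_pos (by positivity)]))
        exact ContinuousAt.comp (f := fun t : ℝ => (r * Λ * (2 * t - 1), -(1 / Λ))) (g := Ψ2) hc
          (by fun_prop)
    · exact hmain t ht
  -- reversals
  have m1 : ∀ z ∈ segment ℝ ((-r, r * Λ) : ℝ × ℝ) (-r, -(r * Λ)), z ∉ Z := by
    rintro z ⟨x, y, hx, hy, hxy, rfl⟩ hz
    have k1 : x * -r + y * -r = -r := by rw [← add_mul, hxy, one_mul]
    have := hZ _ hz (by simp only [Prod.fst_add, Prod.smul_fst, smul_eq_mul]; rw [k1]; simp [abs_of_pos hr]) (by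
      simp only [Prod.snd_add, Prod.smul_snd, smul_eq_mul]
      rw [abs_le]
      constructor <;> nlinarith)
    have := this.1
    simp only [Prod.fst_add, Prod.smul_fst, smul_eq_mul] at this
    rw [k1] at this
    linarith
  have m2 : ∀ z ∈ segment ℝ ((r, -(r * Λ)) : ℝ × ℝ) (-r, -(r * Λ)), z ∉ Z := by
    rintro z ⟨x, y, hx, hy, hxy, rfl⟩ hz
    have k1 : x * -(r * Λ) + y * -(r * Λ) = -(r * Λ) := by rw [← add_mul, hxy, one_mul]
    have := hZ _ hz (by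
      simp only [Prod.fst_add, Prod.smul_fst, smul_eq_mul]
      rw [abs_le]
      constructor <;> nlinarith) (by
      simp only [Prod.snd_add, Prod.smul_snd, smul_eq_mul]; rw [k1]; rw [abs_neg, abs_of_pos hrΛ])
    have := this.2
    simp only [Prod.snd_add, Prod.smul_snd, smul_eq_mul] at this
    rw [k1] at this
    linarith
  have m3 : ∀ z ∈ segment ℝ ((r, -Λ) : ℝ × ℝ) (-r, -Λ), z ∉ Z1 := by
    rintro z ⟨x, y, hx, hy, hxy, rfl⟩ hz
    have k1 : x * -Λ + y * -Λ = -Λ := by rw [← add_mul, hxy, one_mul]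
    have := hΛ1 _ hz
    simp only [Prod.snd_add, Prod.smul_snd, smul_eq_mul] at this
    rw [k1, abs_neg, abs_of_pos hΛ] at this
    exact lt_irrefl _ this
  have v1 := hS M B D Ψ (-r, r * Λ) (-r, -(r * Λ)) (aΨ.cont.mono fun z hz => m1 z hz)
    (fun z hz => aΨ.mem z (m1 z hz))
  have v2 := hS M B D Ψ (r, -(r * Λ)) (-r, -(r * Λ)) (aΨ.cont.mono fun z hz => m2 z hz)
    (fun z hz => aΨ.mem z (m2 z hz))
  have v3 := hS M B D Ψ1 (r, -Λ) (-r, -Λ) (a1.cont.mono fun z hz => m3 z hz)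
    (fun z hz => a1.mem z (m3 z hz))
  rw [hneg] at v1 v2 v3
  have hz1 : (0 : ℝ × ℝ).1 = 0 := rfl
  have hz2 : (0 : ℝ × ℝ).2 = 0 := rfl
  rw [hz1, hz2]
  simp only [zero_sub, zero_add]
  unfold bd at c1 c2 ⊢
  rw [s1, s2, v1, ← v3, s6, s5] at c1
  rw [s3, s4, v2] at c2
  have hsum := congrArg₂ (· + ·) c1 c2
  simp only [add_zero] at hsum
  rw [← hsum]
  set b1 := seg D Ψ (-r, -(r * Λ)) (r, -(r * Λ))
  set b2 := seg D Ψ (r, -(r * Λ)) (r, r * Λ)
  set b3 := seg D Ψ (-r, r * Λ) (r, r * Λ)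
  set b4 := seg D Ψ (-r, -(r * Λ)) (-r, r * Λ)
  set b5 := seg D Ψ2 (-(r * Λ), -(1 / Λ)) (r * Λ, -(1 / Λ))
  set b6 := seg D Ψ2 (-(r * Λ), 1 / Λ) (r * Λ, 1 / Λ)
  have x5 := h2B b5
  have x6 := h2B b6
  calc b1 + b2 + b3 + b4 = b1 + b2 + b3 + b4 + (b5 + b5) + (b6 + b6) := by rw [x5, x6]; simp
    _ = _ := by abel

end Pool.Agent.H87.GR.BLOW
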