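import Pool.Agent.H87.GR.Stm
import Pool.Agent.H87.GR.BEZ

/-!
Project GR, part BLR: the blow-up of a coprime pair is a coprime pair.
-/

namespace Pool.Agent.H87.GR.BLR

open Polynomial

lemma bl_C (r : ℝ[X]) : bl (C r) = C r := by simp [bl]

/-- a prime `e` of `ℝ[x]` not associated to `x` which divides the blow-up divides the pair -/
lemma dvd_of_dvd_bl {e : ℝ[X]} (he : Prime e) (hX : ¬ e ∣ X) {p p1 : P2} {m : ℕ}
    (h : bl p = (C X) ^ m * p1) (hd : C e ∣ p1) : C e ∣ p := by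
  rw [C_dvd_iff_dvd_coeff]
  intro j
  have h1 : p.coeff j * X ^ j = X ^ m * p1.coeff j := by
    rw [← bl_coeff, h, ← C_pow, coeff_C_mul]
  have h2 : e ∣ p.coeff j * X ^ j := by
    rw [h1]
    exact (((C_dvd_iff_dvd_coeff _ _).1 hd) j).mul_left _
  rcases he.dvd_or_dvd h2 with h3 | h3
  · exact h3
  · exact absurd (he.dvd_of_dvd_pow h3) hX

theorem part : StmBLR := by
  intro a a1 ha hbl
  obtain ⟨m, h1, h2, h3⟩ := hbl
  obtain ⟨r, hr, A, B, hAB⟩ := BEZ.part a ha
  intro d hd1 hd2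
  have hdr : d ∣ C r := by
    have h4 : bl A * ((C X) ^ m * a1.1) + bl B * ((C X) ^ m * a1.2) = C r := by
      rw [← h1, ← h2, ← bl_mul, ← bl_mul, ← bl_add, hAB, bl_C]
    rw [← h4]
    exact dvd_add ((hd1.mul_left _).mul_left _) ((hd2.mul_left _).mul_left _)
  have hCr : (C r : P2) ≠ 0 := by simpa using hr
  have hdeg : d.natDegree = 0 := by
    have := natDegree_le_of_dvd hdr hCr
    simpa using this
  obtain ⟨d0, rfl⟩ : ∃ d0, d = C d0 := ⟨d.coeff 0, eq_C_of_natDegree_eq_zero hdeg⟩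
  have hd0 : d0 ≠ 0 := by
    rintro rfl
    rw [C_0, zero_dvd_iff] at hdr
    exact hCr hdr
  rw [isUnit_C]
  by_contra hu
  obtain ⟨e, he, hed⟩ := WfDvdMonoid.exists_irreducible_factor hu hd0
  have hp : Prime e := he.prime
  have he1 : (C e : P2) ∣ a1.1 := (_root_.map_dvd C hed).trans hd1
  have he2 : (C e : P2) ∣ a1.2 := (_root_.map_dvd C hed).trans hd2
  by_cases hX : e ∣ X
  · have hXe : (X : ℝ[X]) ∣ e := (he.associated_of_dvd irreducible_X hX).symm.dvd
    exact h3 ⟨(_root_.map_dvd C hXe).trans he1, (_root_.map_dvd C hXe).trans he2⟩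
  · have e1 := dvd_of_dvd_bl hp hX h1 he1
    have e2 := dvd_of_dvd_bl hp hX h2 he2
    have := ha e1 e2
    rw [isUnit_C] at this
    exact he.not_isUnit this

end Pool.Agent.H87.GR.BLR
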