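import Pool.Agent.H87.GR.Stm

namespace Pool.Agent.H87.GR.CORE

open Polynomial Topology Set Filter

universe u

variable {ι : Type} [Fintype ι]

lemma bad_fin (hF : ∀ a : Pr, RP a → (Ind a).Finite) (f : ι → Pr) (hf : ∀ i, RP (f i)) :
    (Bad f).Finite := Set.finite_iUnion (fun i => hF _ (hf i))

lemma phi_cont (hE : ∀ a : Pr, ContinuousOn (Evl a) (Ind a)ᶜ) (f : ι → Pr) :
    ContinuousOn (Phi f) (Bad f)ᶜ := by
  refine continuousOn_pi.2 (fun i => (hE (f i)).mono ?_)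
  intro z hz hz'
  exact hz (mem_iUnion.2 ⟨i, hz'⟩)

lemma adm (hF : ∀ a : Pr, RP a → (Ind a).Finite) (hE : ∀ a : Pr, ContinuousOn (Evl a) (Ind a)ᶜ)
    {B : Type u} [AddCommGroup B] (D : Coc (ι → ℝ × ℝ) B) (f : ι → Pr) (hf : ∀ i, RP (f i))
    (hX : ∀ z ∉ Bad f, Phi f z ∈ D.X) : Adm D (Phi f) (Bad f) :=
  ⟨bad_fin hF f hf, phi_cont hE f, hX⟩

/-- translation of segments -/
lemma seg_tr {M : Type} {B : Type u} [PseudoMetricSpace M] [AddCommGroup B] (D : Coc M B)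
    (Ψ Ψ' : ℝ × ℝ → M) (w : ℝ × ℝ) (h : ∀ z, Ψ' z = Ψ (w + z)) (p q : ℝ × ℝ) :
    seg D Ψ' p q = seg D Ψ (w + p) (w + q) := by
  unfold seg
  congr 1
  funext t
  rw [h]
  congr 1
  rw [add_sub_add_left_eq_sub, add_assoc]

lemma good_tr {M : Type} {B : Type u} [PseudoMetricSpace M] [AddCommGroup B] (D : Coc M B)
    (Ψ Ψ' : ℝ × ℝ → M) (w : ℝ × ℝ) (h : ∀ z, Ψ' z = Ψ (w + z)) (hg : Good D Ψ' 0) :
    Good D Ψ w := by
  intro ε hε
  obtain ⟨r1, r2, h1, h2, h3, h4, h5⟩ := hg ε hε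
  refine ⟨r1, r2, h1, h2, h3, h4, ?_⟩
  rw [← h5]
  unfold bd
  simp only [seg_tr D Ψ Ψ' w h]
  have e : ∀ a b : ℝ, w + (a, b) = (w.1 + a, w.2 + b) := fun a b => rfl
  simp only [e, Prod.fst_zero, Prod.snd_zero, zero_sub, zero_add, ← sub_eq_add_neg]

lemma good_of_det (hBD0 : StmBD0.{u}) {B : Type u} [AddCommGroup B] (hB : ∀ b : B, b + b = 0)
    (D : Coc (ι → ℝ × ℝ) B) (Ψ : ℝ × ℝ → ι → ℝ × ℝ) (Z : Set (ℝ × ℝ)) (hA : Adm D Ψ Z)
    (w : ℝ × ℝ) (hw : w ∉ Z) : Good D Ψ w := by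
  intro ε hε
  have hop : IsOpen Zᶜ := hA.fin.isClosed.isOpen_compl
  obtain ⟨ρ, hρ, hb⟩ := Metric.isOpen_iff.1 hop w hw
  set r := min ε ρ / 2 with hr
  have hr0 : 0 < r := by positivity
  have hr1 : r < ε := by
    have : min ε ρ ≤ ε := min_le_left _ _
    linarith
  have hr2 : r < ρ := by
    have : min ε ρ ≤ ρ := min_le_right _ _
    linarith
  have hsub : Set.Icc (w.1 - r) (w.1 + r) ×ˢ Set.Icc (w.2 - r) (w.2 + r) ⊆ Zᶜ := by
    intro z hz
    apply hb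
    rw [Metric.mem_ball, Prod.dist_eq, max_lt_iff, Real.dist_eq, Real.dist_eq, abs_lt, abs_lt]
    obtain ⟨⟨h1, h2⟩, h3, h4⟩ := hz
    refine ⟨⟨?_, ?_⟩, ?_, ?_⟩ <;> linarith
  refine ⟨r, r, hr0, hr1, hr0, hr1, ?_⟩
  exact hBD0 _ _ D Ψ _ _ _ _ hB (by linarith) (by linarith) (hA.cont.mono hsub)
    (fun z hz => hA.mem z (hsub hz))

lemma ind_bl {a a1 : Pr} (h : IsBl a a1) {u v : ℝ} (hu : u ≠ 0) :
    (u, v) ∈ Ind a1 ↔ (u, u * v) ∈ Ind a := by
  obtain ⟨m, h1, h2, -⟩ := h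
  have e1 : ev a.1 (u, u * v) = u ^ m * ev a1.1 (u, v) := by
    have := ev_bl a.1 (u, v)
    rw [h1, ev_mul, ev_pow, ev_CX] at this
    exact this.symm
  have e2 : ev a.2 (u, u * v) = u ^ m * ev a1.2 (u, v) := by
    have := ev_bl a.2 (u, v)
    rw [h2, ev_mul, ev_pow, ev_CX] at this
    exact this.symm
  have hum : u ^ m ≠ 0 := pow_ne_zero _ hu
  simp only [Ind, mem_setOf_eq, e1, e2, mul_eq_zero, hum, false_or]

lemma ind_swp {a : Pr} {z : ℝ × ℝ} : z ∈ Ind (swp a) ↔ (z.2, z.1) ∈ Ind a := by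
  simp only [Ind, mem_setOf_eq, swp, ev_sw]

lemma mem_chart (hE : ∀ a : Pr, ContinuousOn (Evl a) (Ind a)ᶜ)
    (hF : ∀ a : Pr, RP a → (Ind a).Finite) {B : Type u} [AddCommGroup B]
    (D : Coc (ι → ℝ × ℝ) B) (f1 : ι → Pr) (hf1 : ∀ i, RP (f1 i))
    (h : ∀ u v : ℝ, u ≠ 0 → (u, v) ∉ Bad f1 → Phi f1 (u, v) ∈ D.X) :
    ∀ z ∉ Bad f1, Phi f1 z ∈ D.X := by
  rintro ⟨u, v⟩ hz
  by_cases hu : u = 0
  · subst hu
    have hfin := bad_fin hF f1 hf1
    have hop : IsOpen (Bad f1)ᶜ := hfin.isClosed.isOpen_compl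
    have hc : ContinuousAt (Phi f1) (0, v) :=
      (phi_cont hE f1).continuousAt (hop.mem_nhds hz)
    have ht : Tendsto (fun t : ℝ => ((t, v) : ℝ × ℝ)) (𝓝[≠] 0) (𝓝 (0, v)) := by
      have : Continuous (fun t : ℝ => ((t, v) : ℝ × ℝ)) := by fun_prop
      exact (this.tendsto 0).mono_left nhdsWithin_le_nhds
    refine D.closed.mem_of_tendsto (hc.tendsto.comp ht) ?_
    have e1 : ∀ᶠ t : ℝ in 𝓝[≠] 0, (t, v) ∈ (Bad f1)ᶜ := ht (hop.mem_nhds hz)
    have e2 : ∀ᶠ t : ℝ in 𝓝[≠] 0, t ≠ 0 := self_mem_nhdsWithin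
    filter_upwards [e1, e2] with t h1 h2 using h t v h2 h1
  · exact h u v hu hz

theorem part (hBLE : StmBLE) (hBLR : StmBLR) (hBEZ : StmBEZ) (hFINI : StmFINI) (hRES : StmRES)
    (hFAM : StmFAM) (hVC : StmVC.{u}) (hSEGS : StmSEGS.{u}) (hSEGA : StmSEGA.{u})
    (hBD0 : StmBD0.{u}) (hRECT : StmRECT.{u}) (hBLOW : StmBLOW.{u}) (hEVL : StmEVL) :
    StmCORE.{u} := by
  intro B _ ι _ f D a1 a2 b1 b2 hB hf hX ha hb hgen
  obtain ⟨hE, hEb, hEs, hEt⟩ := hEVL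
  have hF : ∀ a : Pr, RP a → (Ind a).Finite := hFINI hBEZ
  have key : ∀ f : ι → Pr, (∀ i, RP (f i)) →
      ((∀ z ∉ Bad f, Phi f z ∈ D.X) → Good D (Phi f) 0) := by
    refine hFAM hBLE hBLR (hRES hBLE hBLR hBEZ) ι
      (fun f => (∀ z ∉ Bad f, Phi f z ∈ D.X) → Good D (Phi f) 0) ?_ ?_
    · intro f hf h0 hX
      refine good_of_det hBD0 hB D (Phi f) (Bad f) (adm hF hE D f hf hX) 0 ?_
      intro h
      obtain ⟨i, hi⟩ := mem_iUnion.1 h
      exact h0 i hi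
    · intro f f1 f2 hf hf1 hf2 hb1 hb2 hg1 hg2 hX
      have hX1 : ∀ z ∉ Bad f1, Phi f1 z ∈ D.X := by
        refine mem_chart hE hF D f1 hf1 ?_
        intro u v hu hz
        have e : Phi f1 (u, v) = Phi f (u, u * v) := by
          funext i
          exact hEb _ _ (hb1 i) u v hu
        rw [e]
        apply hX
        intro h
        obtain ⟨i, hi⟩ := mem_iUnion.1 h
        exact hz (mem_iUnion.2 ⟨i, (ind_bl (hb1 i) hu).2 hi⟩)
      have hX2 : ∀ z ∉ Bad f2, Phi f2 z ∈ D.X := by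
        refine mem_chart hE hF D f2 hf2 ?_
        intro u v hu hz
        have e : Phi f2 (u, v) = Phi f (u * v, u) := by
          funext i
          have := hEb _ _ (hb2 i) u v hu
          rw [hEs] at this
          exact this
        rw [e]
        apply hX
        intro h
        obtain ⟨i, hi⟩ := mem_iUnion.1 h
        refine hz (mem_iUnion.2 ⟨i, (ind_bl (hb2 i) hu).2 ?_⟩)
        rw [ind_swp]
        exact hi
      refine hBLOW hVC hSEGS hRECT hSEGA hBD0 _ _ D (Phi f) (Phi f1) (Phi f2) (Bad f) (Bad f1)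
        (Bad f2) hB (adm hF hE D f hf hX) (adm hF hE D f1 hf1 hX1) (adm hF hE D f2 hf2 hX2)
        ?_ ?_ ?_ (hg2 hX2)
      · intro u v hu
        funext i
        exact hEb _ _ (hb1 i) u v hu
      · intro u v hu
        funext i
        have := hEb _ _ (hb2 i) u v hu
        rw [hEs] at this
        exact this
      · intro v
        have e : ∀ z, Phi (fun i => shp (0, v) (f1 i)) z = Phi f1 ((0, v) + z) := by
          intro z
          funext i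
          exact hEt _ _ _
        refine good_tr D (Phi f1) _ (0, v) e (hg1 v ?_)
        intro z hz
        rw [e]
        apply hX1
        intro h
        obtain ⟨i, hi⟩ := mem_iUnion.1 h
        refine hz (mem_iUnion.2 ⟨i, ?_⟩)
        simpa only [Ind, mem_setOf_eq, shp, ev_sh] using hi
  refine hRECT hSEGS hSEGA hBD0 _ _ D (Phi f) (Bad f) a1 a2 b1 b2 hB (adm hF hE D f hf hX) ha hb
    hgen ?_
  intro w hw _ _ _ _
  have e : ∀ z, Phi (fun i => shp w (f i)) z = Phi f (w + z) := by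
    intro z
    funext i
    exact hEt _ _ _
  refine good_tr D (Phi f) _ w e (key _ (fun i => (hf i).shp w) ?_)
  intro z hz
  rw [e]
  apply hX
  intro h
  obtain ⟨i, hi⟩ := mem_iUnion.1 h
  refine hz (mem_iUnion.2 ⟨i, ?_⟩)
  simpa only [Ind, mem_setOf_eq, shp, ev_sh] using hi

end Pool.Agent.H87.GR.CORE
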