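import Pool.Agent.H87.GR.Stm

/-!
Project GR (MP_294eca_gt), part COV: the cocycle of a covering pulled back to a compact space.
-/

namespace Pool.Agent.H87.GR.COV

open Topology Filter Set

universe v w x

section leb

variable {Y I : Type} [TopologicalSpace Y] [CompactSpace Y] [T2Space Y] (k : I → Y → ℝ × ℝ)

lemma nhds_basis (hk : ∀ i, Continuous (k i)) (hs : ∀ x y, (∀ i, k i x = k i y) → x = y)
    (x : Y) (N : Set Y) (hN : N ∈ 𝓝 x) :
    ∃ (J : Finset I) (δ : ℝ), 0 < δ ∧ ∀ x', (∀ i ∈ J, dist (k i x) (k i x') < δ) → x' ∈ N := by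
  have hcont : Continuous (fun (y : Y) (i : I) => k i y) := continuous_pi hk
  have hinj : Function.Injective (fun (y : Y) (i : I) => k i y) :=
    fun a b hab => hs a b (fun i => congrFun hab i)
  have hemb := hcont.isClosedEmbedding hinj
  rw [hemb.isInducing.nhds_eq_comap] at hN
  obtain ⟨s, hs1, hs2⟩ := hN
  rw [nhds_pi, Filter.mem_pi] at hs1
  obtain ⟨I', hI', t, ht, hts⟩ := hs1
  have h1 : ∀ᶠ ε in 𝓝[>] (0:ℝ), ∀ i ∈ I', Metric.ball (k i x) ε ⊆ t i := by
    rw [Filter.eventually_all_finite hI']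
    intro i hi
    obtain ⟨ε, hε, hb⟩ := Metric.mem_nhds_iff.1 (ht i)
    filter_upwards [Ioo_mem_nhdsGT hε] with η hη
    exact (Metric.ball_subset_ball hη.2.le).trans hb
  obtain ⟨ε, hε1, hε2⟩ := (h1.and self_mem_nhdsWithin).exists
  refine ⟨hI'.toFinset, ε, hε2, fun x' hx' => hs2 (hts fun i hi => hε1 i hi ?_)⟩
  have := hx' i (by simpa using hi)
  rw [Metric.mem_ball, dist_comm]
  exact this

lemma leb (hk : ∀ i, Continuous (k i)) (hs : ∀ x y, (∀ i, k i x = k i y) → x = y)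
    (N : Y → Set Y) (hN : ∀ y, N y ∈ 𝓝 y) (J0 : Finset I) :
    ∃ (J : Finset I) (δ : ℝ), J0 ⊆ J ∧ 0 < δ ∧
      ∀ x, ∃ y, ∀ x', (∀ i ∈ J, dist (k i x) (k i x') < δ) → x' ∈ N y := by
  classical
  choose J δ hδ hJ using fun y => nhds_basis k hk hs y (N y) (hN y)
  have hB : ∀ y, {x' | ∀ i ∈ J y, dist (k i y) (k i x') < δ y / 2} ∈ 𝓝 y := by
    intro y
    have h0 : ∀ᶠ x' in 𝓝 y, ∀ i ∈ J y, dist (k i y) (k i x') < δ y / 2 := by
      rw [Filter.eventually_all_finset]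
      intro i hi
      have h1 : Continuous fun x' => dist (k i y) (k i x') := continuous_const.dist (hk i)
      have h2 : dist (k i y) (k i y) < δ y / 2 := by
        rw [dist_self]; linarith [hδ y]
      exact h1.continuousAt.eventually (gt_mem_nhds h2)
    exact h0
  obtain ⟨T, hT⟩ := CompactSpace.elim_nhds_subcover _ hB
  have h1 : ∀ᶠ ε in 𝓝[>] (0:ℝ), ∀ y ∈ T, ε ≤ δ y / 2 := by
    rw [Filter.eventually_all_finset]
    intro y _
    filter_upwards [Ioo_mem_nhdsGT (half_pos (hδ y))] with η hη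
    exact hη.2.le
  obtain ⟨ε, hε1, hε2⟩ := (h1.and self_mem_nhdsWithin).exists
  refine ⟨J0 ∪ T.biUnion J, ε, Finset.subset_union_left, hε2, fun x => ?_⟩
  have hx : x ∈ (⊤ : Set Y) := trivial
  rw [← hT] at hx
  simp only [mem_iUnion] at hx
  obtain ⟨y, hyT, hxy⟩ := hx
  refine ⟨y, fun x' hx' => hJ y x' fun i hi => ?_⟩
  have h2 := hx' i (Finset.mem_union_right _ (Finset.mem_biUnion.2 ⟨y, hyT, hi⟩))
  have h3 := hxy i hi
  have h4 := hε1 y hyT
  have h5 := dist_triangle (k i y) (k i x) (k i x')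
  linarith

end leb

theorem part : StmCOV.{v, w, x} := by
  intro G E K _ _ _ _ π hC Y _ _ _ I k hk hs h J0
  classical
  choose e he using fun y => hC.quot.surjective (h y)
  choose U hUo hUm hU using fun y => hC.cov (e y)
  have hOo : ∀ y, IsOpen (h ⁻¹' (π '' U y)) :=
    fun y => (hC.quot.isOpenMap _ (hUo y)).preimage h.continuous
  have hOm : ∀ y, y ∈ h ⁻¹' (π '' U y) := fun y => ⟨e y, hUm y, he y⟩
  have hau : ∀ y (g g' : G) (u u' : E), u ∈ U y → u' ∈ U y → g +ᵥ u = g' +ᵥ u' → g = g' := by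
    intro y g g' u u' hu hu' hgg
    by_contra hne
    have h1 : (-g' + g) +ᵥ u = u' := by
      rw [← vadd_vadd, hgg, neg_vadd_vadd]
    have h2 : -g' + g ≠ 0 := by
      intro h0
      apply hne
      have : g' + (-g' + g) = g' + 0 := by rw [h0]
      simpa using this
    exact hU y _ h2 u hu (h1 ▸ hu')
  obtain ⟨a, ha⟩ : ∃ a : Y → Y → G, ∀ y y' (g : G) (u : E), u ∈ U y → g +ᵥ u = e y' →
      a y y' = g := by
    refine ⟨fun y y' => if hh : ∃ g : G, ∃ u ∈ U y, g +ᵥ u = e y' then hh.choose else 0, ?_⟩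
    intro y y' g u hu hgu
    have hh : ∃ g : G, ∃ u ∈ U y, g +ᵥ u = e y' := ⟨g, u, hu, hgu⟩
    obtain ⟨u', hu', hgu'⟩ := hh.choose_spec
    simp only [dif_pos hh]
    exact hau y _ _ u' u hu' hu (hgu'.trans hgu.symm)
  obtain ⟨T, hT⟩ := CompactSpace.elim_nhds_subcover (fun y => h ⁻¹' (π '' U y))
    (fun y => (hOo y).mem_nhds (hOm y))
  obtain ⟨Cl, hCl1, hCl2, hCl3⟩ := exists_iUnion_eq_closed_subset
    (u := fun j : T => h ⁻¹' (π '' U j)) (fun j => hOo j) (fun x => Set.toFinite _) (by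
      rw [Set.eq_univ_iff_forall]
      intro x
      have hx : x ∈ (⊤ : Set Y) := trivial
      rw [← hT] at hx
      simp only [mem_iUnion] at hx
      obtain ⟨y, hyT, hxy⟩ := hx
      exact mem_iUnion.2 ⟨⟨y, hyT⟩, hxy⟩)
  -- local constancy
  have hloc : ∀ (i j y : Y), h y ∈ π '' U i → h y ∈ π '' U j →
      ∀ᶠ y' in 𝓝 y, a i y' - a j y' = a i y - a j y := by
    intro i j y hyi hyj
    obtain ⟨ui, hui, hyi⟩ := hyi
    obtain ⟨uj, huj, hyj⟩ := hyj
    obtain ⟨gi, hgi⟩ := (hC.fib ui (e y)).1 (hyi.trans (he y).symm)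
    obtain ⟨gj, hgj⟩ := (hC.fib uj (e y)).1 (hyj.trans (he y).symm)
    have hai := ha i y gi ui hui hgi
    have haj := ha j y gj uj huj hgj
    have hopen : IsOpen {u : E | u ∈ U i ∧ (gi - gj) +ᵥ u ∈ U j} :=
      (hUo i).inter ((hUo j).preimage (hC.cont (gi - gj)))
    have hmem : ui ∈ {u : E | u ∈ U i ∧ (gi - gj) +ᵥ u ∈ U j} := by
      refine ⟨hui, ?_⟩
      have h1 : (gi - gj) +ᵥ ui = uj := by
        rw [sub_eq_neg_add, ← vadd_vadd, hgi, ← hgj, neg_vadd_vadd]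
      rw [h1]; exact huj
    have hopen2 := (hC.quot.isOpenMap _ hopen).preimage h.continuous
    have hy2 : y ∈ h ⁻¹' (π '' {u : E | u ∈ U i ∧ (gi - gj) +ᵥ u ∈ U j}) := ⟨ui, hmem, hyi⟩
    filter_upwards [hopen2.mem_nhds hy2] with y' hy'
    obtain ⟨u, ⟨hu1, hu2⟩, hu3⟩ := hy'
    obtain ⟨b, hb⟩ := (hC.fib u (e y')).1 (hu3.trans (he y').symm)
    have h1 := ha i y' b u hu1 hb
    have h2 := ha j y' (b - (gi - gj)) _ hu2 (by
      rw [vadd_vadd, sub_add_cancel, hb])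
    rw [h1, h2, hai, haj]
    abel
  -- the neighbourhoods
  have hN : ∀ y, {y' | (∀ i j : T, y ∈ Cl i → y ∈ Cl j → a i y' - a j y' = a i y - a j y) ∧
      (∀ j : T, y ∉ Cl j → y' ∉ Cl j)} ∈ 𝓝 y := by
    intro y
    have h1 : ∀ᶠ y' in 𝓝 y, (∀ i j : T, y ∈ Cl i → y ∈ Cl j →
        a i y' - a j y' = a i y - a j y) := by
      rw [Filter.eventually_all]; intro i
      rw [Filter.eventually_all]; intro j
      by_cases hi : y ∈ Cl i
      · by_cases hj : y ∈ Cl j
        · filter_upwards [hloc i j y (hCl3 i hi) (hCl3 j hj)] with y' hy' _ _ using hy'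
        · exact Filter.Eventually.of_forall fun _ _ h' => absurd h' hj
      · exact Filter.Eventually.of_forall fun _ h' => absurd h' hi
    have h2 : ∀ᶠ y' in 𝓝 y, (∀ j : T, y ∉ Cl j → y' ∉ Cl j) := by
      rw [Filter.eventually_all]; intro j
      by_cases hj : y ∈ Cl j
      · exact Filter.Eventually.of_forall fun _ h' => absurd hj h'
      · filter_upwards [(hCl2 j).isOpen_compl.mem_nhds hj] with y' hy' _ using hy'
    exact h1.and h2
  obtain ⟨J, δ, hJ0, hδ, hL⟩ := leb k hk hs _ hN J0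
  have hjj : ∀ x, ∃ j : T, x ∈ Cl j := by
    intro x
    have hx : x ∈ (univ : Set Y) := trivial
    rw [← hCl1] at hx
    exact mem_iUnion.1 hx
  choose jj hjj using hjj
  refine ⟨e, J, δ, fun x x' => a (jj x) x' - a (jj x) x, hJ0, hδ, he, ?_, ?_⟩
  · intro x y z hxy hyz hxz
    obtain ⟨y0, hy0⟩ := hL x
    have hx0 := hy0 x (fun i _ => by rw [dist_self]; exact hδ)
    have hyy := hy0 y hxy
    have hzz := hy0 z hxz
    have hjx : y0 ∈ Cl (jj x) := by
      by_contra hc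
      exact hx0.2 _ hc (hjj x)
    have hjy : y0 ∈ Cl (jj y) := by
      by_contra hc
      exact hyy.2 _ hc (hjj y)
    have h1 := hyy.1 _ _ hjx hjy
    have h2 := hzz.1 _ _ hjx hjy
    have h3 := h1.trans h2.symm
    have h4 : a (jj x) y = a (jj x) z - a (jj y) z + a (jj y) y := by
      rw [← h3]; abel
    show a (jj x) y - a (jj x) x + (a (jj y) z - a (jj y) y) = a (jj x) z - a (jj x) x
    rw [h4]; abel
  · intro y e0 b hb
    have hy := hCl3 _ (hjj y)
    obtain ⟨u, hu, hyu⟩ := hy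
    obtain ⟨g, hg⟩ := (hC.fib u (e y)).1 (hyu.trans (he y).symm)
    have hag := ha (jj y) y g u hu hg
    refine ⟨{e' | (b - g) +ᵥ e' ∈ U (jj y)}, (hUo _).preimage (hC.cont (b - g)), ?_, ?_⟩
    · have h1 : (b - g) +ᵥ e0 = u := by
        rw [sub_eq_neg_add, ← vadd_vadd, ← hb, ← hg, neg_vadd_vadd]
      show (b - g) +ᵥ e0 ∈ U (jj y)
      rw [h1]; exact hu
    · intro y' e' a' _ he' hea
      have h1 := ha (jj y) y' (a' - (b - g)) _ he' (by
        rw [vadd_vadd, sub_add_cancel, hea])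
      show a (jj y) y' - a (jj y) y = a' - b
      rw [h1, hag]; abel

end Pool.Agent.H87.GR.COV
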