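import Mathlib

/-!
Project GR (MP_294eca_gt): graphoids of families of rational functions.
Definitions and basic evaluation lemmas.
-/

namespace Pool.Agent.H87.GR

open Polynomial Topology

/-- Bivariate real polynomials `ℝ[x][y]`; the inner variable is `x`, the outer one is `y`. -/
abbrev P2 := Polynomial (Polynomial ℝ)

/-- evaluation at a point of the plane -/
noncomputable def ev (p : P2) (z : ℝ × ℝ) : ℝ := Polynomial.evalEval z.1 z.2 p

lemma ev_mul (p q : P2) (z : ℝ × ℝ) : ev (p * q) z = ev p z * ev q z := by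
  simp [ev, evalEval]

lemma ev_add (p q : P2) (z : ℝ × ℝ) : ev (p + q) z = ev p z + ev q z := by
  simp [ev, evalEval]

lemma ev_pow (p : P2) (n : ℕ) (z : ℝ × ℝ) : ev (p ^ n) z = ev p z ^ n := by
  simp [ev, evalEval]

@[simp] lemma ev_CX (z : ℝ × ℝ) : ev (C X) z = z.1 := by simp [ev, evalEval]

@[simp] lemma ev_X (z : ℝ × ℝ) : ev X z = z.2 := by simp [ev, evalEval]

@[simp] lemma ev_one (z : ℝ × ℝ) : ev 1 z = 1 := by simp [ev, evalEval]

/-- translation by `w`: `sh w p (z) = p (w + z)` -/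
noncomputable def sh (w : ℝ × ℝ) : P2 ≃+* P2 :=
  (Polynomial.mapEquiv (algEquivAevalXAddC w.1 : ℝ[X] ≃ₐ[ℝ] ℝ[X]).toRingEquiv).trans
    (algEquivAevalXAddC (C w.2 : ℝ[X]) : P2 ≃ₐ[ℝ[X]] P2).toRingEquiv

lemma ev_sh (w : ℝ × ℝ) (p : P2) (z : ℝ × ℝ) : ev (sh w p) z = ev p (w + z) := by
  induction p using Polynomial.induction_on' with
  | add p q hp hq => rw [map_add, ev_add, ev_add, hp, hq]
  | monomial n a =>
    rw [← C_mul_X_pow_eq_monomial, map_mul, map_pow, ev_mul, ev_mul, ev_pow, ev_pow]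
    have h1 : sh w (X : P2) = X + C (C w.2) := by
      simp [sh]
    have h2 : sh w (C a : P2) = C (a.comp (X + C w.1)) := by
      simp [sh, Polynomial.aeval_def, Polynomial.comp]
    rw [h1, h2]
    simp [ev, evalEval, add_comm]

/-- exchange of the two variables -/
noncomputable def sw : P2 ≃+* P2 := (Polynomial.Bivariate.swap (R := ℝ)).toRingEquiv

lemma ev_sw (p : P2) (z : ℝ × ℝ) : ev (sw p) z = ev p (z.2, z.1) := by
  induction p using Polynomial.induction_on' with
  | add p q hp hq => rw [map_add, ev_add, ev_add, hp, hq]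
  | monomial n a =>
    rw [← C_mul_X_pow_eq_monomial, map_mul, map_pow, ev_mul, ev_mul, ev_pow, ev_pow]
    have h1 : sw (X : P2) = C X := by
      exact Polynomial.Bivariate.swap_Y
    have h2 : sw (C a : P2) = a.map C := by
      simp [sw, Polynomial.Bivariate.swap_C]
    rw [h1, h2]
    simp [ev, evalEval, eval_map_apply]

/-- the substitution `(x, y) = (u, u v)` -/
noncomputable def bl (p : P2) : P2 := p.comp (C X * X)

lemma bl_add (p q : P2) : bl (p + q) = bl p + bl q := by simp [bl]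

lemma bl_mul (p q : P2) : bl (p * q) = bl p * bl q := by simp [bl]

lemma bl_coeff (p : P2) (n : ℕ) : (bl p).coeff n = p.coeff n * X ^ n := by
  simp [bl, comp_C_mul_X_coeff]

lemma ev_bl (p : P2) (z : ℝ × ℝ) : ev (bl p) z = ev p (z.1, z.1 * z.2) := by
  induction p using Polynomial.induction_on' with
  | add p q hp hq => rw [bl_add, ev_add, ev_add, hp, hq]
  | monomial n a =>
    rw [← C_mul_X_pow_eq_monomial, bl_mul, ev_mul, ev_mul]
    simp only [ev, evalEval, bl]
    simp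
    left
    rw [mul_comm]

/-- a pair of polynomials -/
abbrev Pr := P2 × P2

/-- the pair is coprime -/
def RP (a : Pr) : Prop := IsRelPrime a.1 a.2

/-- translated pair -/
noncomputable def shp (w : ℝ × ℝ) (a : Pr) : Pr := (sh w a.1, sh w a.2)

/-- swapped pair (exchange of the two variables) -/
noncomputable def swp (a : Pr) : Pr := (sw a.1, sw a.2)

/-- indeterminacy points of a pair -/
def Ind (a : Pr) : Set (ℝ × ℝ) := {z | ev a.1 z = 0 ∧ ev a.2 z = 0}

/-- `a1` is the blow-up (first chart `(x, y) = (u, u v)`, at the origin) of the pair `a`. -/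
def IsBl (a a1 : Pr) : Prop :=
  ∃ m : ℕ, bl a.1 = (C X) ^ m * a1.1 ∧ bl a.2 = (C X) ^ m * a1.2 ∧
    ¬ ((C X : P2) ∣ a1.1 ∧ (C X : P2) ∣ a1.2)

/-- pairs whose indeterminacy at the origin is resolved by finitely many blow-ups -/
inductive Res0 : Pr → Prop
  | base (a : Pr) (h : (0 : ℝ × ℝ) ∉ Ind a) : Res0 a
  | step (a a1 a2 : Pr) (h1 : IsBl a a1) (h2 : IsBl (swp a) a2)
      (ha1 : ∀ v : ℝ, Res0 (shp (0, v) a1)) (ha2 : Res0 a2) : Res0 a

lemma RP.shp {a : Pr} (h : RP a) (w : ℝ × ℝ) : RP (shp w a) := by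
  intro d h1 h2
  have h1' : (sh w).symm d ∣ a.1 := by
    have := map_dvd (sh w).symm h1
    simpa [GR.shp] using this
  have h2' : (sh w).symm d ∣ a.2 := by
    have := map_dvd (sh w).symm h2
    simpa [GR.shp] using this
  have h3 := h h1' h2'
  have h4 := h3.map (sh w)
  simpa using h4

lemma RP.swp {a : Pr} (h : RP a) : RP (swp a) := by
  intro d h1 h2
  have h1' : sw.symm d ∣ a.1 := by
    have := map_dvd sw.symm h1
    simpa [GR.swp] using this
  have h2' : sw.symm d ∣ a.2 := by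
    have := map_dvd sw.symm h2
    simpa [GR.swp] using this
  have h3 := h h1' h2'
  have h4 := h3.map sw
  simpa using h4

/-! ### Metric side -/

/-- the embedding `[p : q] ↦ (p²/(p²+q²), pq/(p²+q²))` of the projective line, applied to a pair -/
noncomputable def Evl (a : Pr) (z : ℝ × ℝ) : ℝ × ℝ :=
  (ev a.1 z ^ 2 / (ev a.1 z ^ 2 + ev a.2 z ^ 2), ev a.1 z * ev a.2 z / (ev a.1 z ^ 2 + ev a.2 z ^ 2))

/-- the map to `(ℝ²)^ι` given by a finite family of pairs -/
noncomputable def Phi {ι : Type*} (f : ι → Pr) (z : ℝ × ℝ) : ι → ℝ × ℝ := fun i => Evl (f i) z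

/-- indeterminacy points of a family -/
def Bad {ι : Type*} (f : ι → Pr) : Set (ℝ × ℝ) := ⋃ i, Ind (f i)

/-- a `δ`-cocycle on a closed subset `X` of a metric space, with values in `B` -/
structure Coc (M B : Type*) [PseudoMetricSpace M] [AddCommGroup B] where
  X : Set M
  closed : IsClosed X
  c : M → M → B
  δ : ℝ
  δpos : 0 < δ
  add : ∀ x ∈ X, ∀ y ∈ X, ∀ z ∈ X, dist x y < δ → dist y z < δ → dist x z < δ →
    c x y + c y z = c x z

variable {M B : Type*} [PseudoMetricSpace M] [AddCommGroup B]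

/-- `θ` is a primitive of the cocycle along the path `γ : [0,1] → X` -/
def IsPrim (D : Coc M B) (γ : ℝ → M) (θ : ℝ → B) : Prop :=
  ∀ t ∈ Set.Icc (0:ℝ) 1, ∀ᶠ s in 𝓝[Set.Icc (0:ℝ) 1] t, D.c (γ t) (γ s) = θ s - θ t

open Classical in
/-- the value of the cocycle along a path -/
noncomputable def V (D : Coc M B) (γ : ℝ → M) : B :=
  if h : ∃ θ, IsPrim D γ θ then h.choose 1 - h.choose 0 else 0

/-- the value along a segment of the plane, under a map `Ψ : ℝ² → M` -/
noncomputable def seg (D : Coc M B) (Ψ : ℝ × ℝ → M) (p q : ℝ × ℝ) : B :=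
  V D (fun t => Ψ (p + t • (q - p)))

/-- (unsigned) boundary value of the rectangle `[a1,a2] × [b1,b2]`; used when `2 B = 0` -/
noncomputable def bd (D : Coc M B) (Ψ : ℝ × ℝ → M) (a1 a2 b1 b2 : ℝ) : B :=
  seg D Ψ (a1, b1) (a2, b1) + seg D Ψ (a2, b1) (a2, b2) +
    seg D Ψ (a1, b2) (a2, b2) + seg D Ψ (a1, b1) (a1, b2)

/-- admissible maps: continuous off a finite set, with values in `X` there -/
structure Adm (D : Coc M B) (Ψ : ℝ × ℝ → M) (Z : Set (ℝ × ℝ)) : Prop where
  fin : Z.Finite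
  cont : ContinuousOn Ψ Zᶜ
  mem : ∀ z ∉ Z, Ψ z ∈ D.X

/-- the point `w` is good for `Ψ`: arbitrarily small boxes around it have boundary value `0` -/
def Good (D : Coc M B) (Ψ : ℝ × ℝ → M) (w : ℝ × ℝ) : Prop :=
  ∀ ε > 0, ∃ r1 r2 : ℝ, 0 < r1 ∧ r1 < ε ∧ 0 < r2 ∧ r2 < ε ∧
    bd D Ψ (w.1 - r1) (w.1 + r1) (w.2 - r2) (w.2 + r2) = 0

end Pool.Agent.H87.GR
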