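import Pool.Agent.H87.GR.Stm

/-!
Project GR, part EVL: continuity of `Evl` off the indeterminacy set and invariance under
blow-ups, exchange and translation.
-/

namespace Pool.Agent.H87.GR.EVL

open Polynomial

lemma continuous_ev (p : P2) : Continuous (ev p) := by
  induction p using Polynomial.induction_on' with
  | add p q hp hq =>
    have : ev (p + q) = fun z => ev p z + ev q z := by
      funext z; exact ev_add p q z
    rw [this]; exact hp.add hq
  | monomial n a =>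
    have : ev (monomial n a) = fun z : ℝ × ℝ => a.eval z.1 * z.2 ^ n := by
      funext z
      simp [ev, evalEval, eval_monomial]
    rw [this]
    exact (a.continuous.comp continuous_fst).mul (continuous_snd.pow n)

lemma sum_ne {x y : ℝ} (h : ¬ (x = 0 ∧ y = 0)) : x ^ 2 + y ^ 2 ≠ 0 := by
  intro h0
  apply h
  constructor <;> nlinarith [sq_nonneg x, sq_nonneg y]

theorem part : StmEVL := by
  refine ⟨?_, ?_, ?_, ?_⟩
  · intro a
    have h1 : Continuous (ev a.1) := continuous_ev a.1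
    have h2 : Continuous (ev a.2) := continuous_ev a.2
    have hne : ∀ z ∈ (Ind a)ᶜ, ev a.1 z ^ 2 + ev a.2 z ^ 2 ≠ 0 := fun z hz => sum_ne hz
    unfold Evl
    apply ContinuousOn.prodMk
    · exact (h1.pow 2).continuousOn.div ((h1.pow 2).add (h2.pow 2)).continuousOn hne
    · exact (h1.mul h2).continuousOn.div ((h1.pow 2).add (h2.pow 2)).continuousOn hne
  · intro a a1 ⟨m, h1, h2, _⟩ u v hu
    have e1 : ev a.1 (u, u * v) = u ^ m * ev a1.1 (u, v) := by
      rw [← ev_bl a.1 (u, v), h1, ev_mul, ev_pow, ev_CX]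
    have e2 : ev a.2 (u, u * v) = u ^ m * ev a1.2 (u, v) := by
      rw [← ev_bl a.2 (u, v), h2, ev_mul, ev_pow, ev_CX]
    have hum : u ^ m ≠ 0 := pow_ne_zero _ hu
    unfold Evl
    rw [e1, e2]
    have e3 : (u ^ m * ev a1.1 (u, v)) ^ 2 + (u ^ m * ev a1.2 (u, v)) ^ 2 =
        (u ^ m) ^ 2 * (ev a1.1 (u, v) ^ 2 + ev a1.2 (u, v) ^ 2) := by ring
    have e4 : (u ^ m * ev a1.1 (u, v)) ^ 2 = (u ^ m) ^ 2 * ev a1.1 (u, v) ^ 2 := by ring
    have e5 : (u ^ m * ev a1.1 (u, v)) * (u ^ m * ev a1.2 (u, v)) =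
        (u ^ m) ^ 2 * (ev a1.1 (u, v) * ev a1.2 (u, v)) := by ring
    have e6 : (u ^ m) ^ 2 ≠ 0 := pow_ne_zero _ hum
    rw [e3, e4, e5, mul_div_mul_left _ _ e6, mul_div_mul_left _ _ e6]
  · intro a z
    show ((ev (sw a.1) z ^ 2 / (ev (sw a.1) z ^ 2 + ev (sw a.2) z ^ 2),
      ev (sw a.1) z * ev (sw a.2) z / (ev (sw a.1) z ^ 2 + ev (sw a.2) z ^ 2)) : ℝ × ℝ) = _
    rw [ev_sw, ev_sw]
    rfl
  · intro a w z
    show ((ev (sh w a.1) z ^ 2 / (ev (sh w a.1) z ^ 2 + ev (sh w a.2) z ^ 2),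
      ev (sh w a.1) z * ev (sh w a.2) z / (ev (sh w a.1) z ^ 2 + ev (sh w a.2) z ^ 2)) : ℝ × ℝ) = _
    rw [ev_sh, ev_sh]
    rfl

end Pool.Agent.H87.GR.EVL
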