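import Pool.Agent.H87.GR.Stm

/-!
Project GR, part FAM: the induction principle for finite families of coprime pairs.
-/

namespace Pool.Agent.H87.GR.FAM

open Polynomial

lemma not_ind_of_bl {a a1 : Pr} (h : IsBl a a1) (h0 : (0 : ℝ × ℝ) ∉ Ind a) (v : ℝ) :
    (0 : ℝ × ℝ) ∉ Ind (shp (0, v) a1) := by
  intro hz
  apply h0
  obtain ⟨m, h1, h2, _⟩ := h
  obtain ⟨z1, z2⟩ := hz
  have z1' : ev a1.1 (0, v) = 0 := by
    have := z1
    rw [show (shp (0, v) a1).1 = sh (0, v) a1.1 from rfl, ev_sh] at this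
    simpa using this
  have z2' : ev a1.2 (0, v) = 0 := by
    have := z2
    rw [show (shp (0, v) a1).2 = sh (0, v) a1.2 from rfl, ev_sh] at this
    simpa using this
  constructor
  · have := ev_bl a.1 (0, v)
    rw [h1, ev_mul, z1', mul_zero] at this
    simp only [zero_mul] at this
    exact this.symm
  · have := ev_bl a.2 (0, v)
    rw [h2, ev_mul, z2', mul_zero] at this
    simp only [zero_mul] at this
    exact this.symm

lemma shp_zero (a : Pr) (h : (0 : ℝ × ℝ) ∈ Ind a) : (0 : ℝ × ℝ) ∈ Ind (shp (0, 0) a) := by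
  obtain ⟨h1, h2⟩ := h
  constructor
  · show ev (sh (0, 0) a.1) 0 = 0
    rw [ev_sh, show ((0, 0) + 0 : ℝ × ℝ) = 0 by simp]; exact h1
  · show ev (sh (0, 0) a.2) 0 = 0
    rw [ev_sh, show ((0, 0) + 0 : ℝ × ℝ) = 0 by simp]; exact h2

lemma ind_swp (a : Pr) : (0 : ℝ × ℝ) ∈ Ind (swp a) ↔ (0 : ℝ × ℝ) ∈ Ind a := by
  show (ev (sw a.1) 0 = 0 ∧ ev (sw a.2) 0 = 0) ↔ (ev a.1 0 = 0 ∧ ev a.2 0 = 0)
  rw [ev_sw, ev_sw]
  rfl

theorem part : StmFAM := by
  intro hBLE hBLR hRes ι _ G0 hbase hstep
  have key : ∀ n : ℕ, ∀ f : ι → Pr, (∀ i, RP (f i)) →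
      {i | (0 : ℝ × ℝ) ∈ Ind (f i)}.ncard ≤ n → G0 f := by
    intro n
    induction n with
    | zero =>
      intro f hf hn
      apply hbase f hf
      intro i hi
      have : {i | (0 : ℝ × ℝ) ∈ Ind (f i)} = ∅ := by
        rw [← Set.ncard_eq_zero (Set.toFinite _)]; omega
      have h2 : i ∈ {i | (0 : ℝ × ℝ) ∈ Ind (f i)} := hi
      rw [this] at h2
      exact h2
    | succ n ih =>
      intro f hf hn
      by_cases hall : ∀ i, (0 : ℝ × ℝ) ∉ Ind (f i)
      · exact hbase f hf hall
      push Not at hall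
      obtain ⟨i0, hi0⟩ := hall
      have inner : ∀ a : Pr, Res0 a → ∀ f : ι → Pr, (∀ i, RP (f i)) → f i0 = a →
          {j | j ≠ i0 ∧ (0 : ℝ × ℝ) ∈ Ind (f j)}.ncard ≤ n → G0 f := by
        intro a ha
        induction ha with
        | base a h =>
          intro f hf hfa hn
          apply ih f hf
          refine le_trans (Set.ncard_le_ncard ?_ (Set.toFinite _)) hn
          intro j hj
          refine ⟨?_, hj⟩
          rintro rfl
          have hj' : (0 : ℝ × ℝ) ∈ Ind (f j) := hj
          rw [hfa] at hj'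
          exact h hj'
        | step a a1 a2 h1 h2 ha1 ha2 ih1 ih2 =>
          intro f hf hfa hn
          have e1 : ∀ i, ∃ b, IsBl (f i) b ∧ (i = i0 → b = a1) := by
            intro i
            by_cases hi : i = i0
            · subst hi
              exact ⟨a1, by rw [hfa]; exact h1, fun _ => rfl⟩
            · obtain ⟨b, hb⟩ := hBLE (f i) (hf i)
              exact ⟨b, hb, fun h => absurd h hi⟩
          have e2 : ∀ i, ∃ b, IsBl (swp (f i)) b ∧ (i = i0 → b = a2) := by
            intro i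
            by_cases hi : i = i0
            · subst hi
              exact ⟨a2, by rw [hfa]; exact h2, fun _ => rfl⟩
            · obtain ⟨b, hb⟩ := hBLE (swp (f i)) (hf i).swp
              exact ⟨b, hb, fun h => absurd h hi⟩
          choose f1 hf1 hf1' using e1
          choose f2 hf2 hf2' using e2
          have r1 : ∀ i, RP (f1 i) := fun i => hBLR _ _ (hf i) (hf1 i)
          have r2 : ∀ i, RP (f2 i) := fun i => hBLR _ _ (hf i).swp (hf2 i)
          apply hstep f f1 f2 hf r1 r2 hf1 hf2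
          · intro v
            apply ih1 v (fun i => shp (0, v) (f1 i)) (fun i => (r1 i).shp _)
            · show shp (0, v) (f1 i0) = shp (0, v) a1
              rw [hf1' i0 rfl]
            · refine le_trans (Set.ncard_le_ncard ?_ (Set.toFinite _)) hn
              rintro j ⟨hj, hj0⟩
              refine ⟨hj, ?_⟩
              by_contra hcon
              exact not_ind_of_bl (hf1 j) hcon v hj0
          · apply ih2 f2 r2 (hf2' i0 rfl)
            refine le_trans (Set.ncard_le_ncard ?_ (Set.toFinite _)) hn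
            rintro j ⟨hj, hj0⟩
            refine ⟨hj, ?_⟩
            by_contra hcon
            have h3 : (0 : ℝ × ℝ) ∉ Ind (swp (f j)) := by rwa [ind_swp]
            exact not_ind_of_bl (hf2 j) h3 0 (shp_zero _ hj0)
      apply inner (f i0) (hRes _ (hf i0)) f hf rfl
      have hsub : {j | j ≠ i0 ∧ (0 : ℝ × ℝ) ∈ Ind (f j)} ⊂ {i | (0 : ℝ × ℝ) ∈ Ind (f i)} := by
        refine ⟨fun j hj => hj.2, fun hcon => ?_⟩
        exact (hcon hi0).1 rfl
      have := Set.ncard_lt_ncard hsub (Set.toFinite _)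
      omega
  intro f hf
  exact key _ f hf le_rfl

end Pool.Agent.H87.GR.FAM
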