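import Pool.Agent.H87.GR.CORE

namespace Pool.Agent.H87.GR.FIN

open Polynomial Topology Set Filter

universe v w x

/-- `K` is an Eilenberg–MacLane space `K(G,1)` of the discrete abelian group `G`: the quotient of a
contractible space by a covering space action of `G`. -/
def IsEM1 (G : Type v) [AddCommGroup G] (K : Type x) [TopologicalSpace K] : Prop :=
  ∃ (E : Type w) (_ : TopologicalSpace E) (_ : AddAction G E) (π : E → K),
    ContractibleSpace E ∧ CovAct G E K π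

section side

variable {G : Type v} {E : Type w} {K : Type x} [AddCommGroup G] [TopologicalSpace E]
  [TopologicalSpace K] [AddAction G E] {π : E → K}

lemma free (hcov : CovAct G E K π) {a b : G} {y : E} (h : a +ᵥ y = b +ᵥ y) : a = b := by
  by_contra hab
  obtain ⟨U, -, hyU, hU⟩ := hcov.cov y
  have h1 : (a - b) ≠ 0 := sub_ne_zero.2 hab
  have h2 := hU (a - b) h1 y hyU
  apply h2
  have : (a - b) +ᵥ y = y := by
    rw [sub_eq_neg_add, add_vadd, h, neg_vadd_vadd]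
  rwa [this]

lemma side (hVB : StmVB.{v}) (hcov : CovAct G E K π) {Y I : Type} [TopologicalSpace Y]
    (k : I → Y → ℝ × ℝ) (h : C(Y, K)) (e : Y → E) (he : ∀ y, π (e y) = h y)
    (J : Finset I) (δ : ℝ) (c : Y → Y → G)
    (LP : ∀ (y : Y) (e0 : E) (a : G), e y = a +ᵥ e0 → ∃ O : Set E, IsOpen O ∧ e0 ∈ O ∧
        ∀ (y' : Y) (e' : E) (a' : G), (∀ i ∈ J, dist (k i y) (k i y') < δ) → e' ∈ O →
          e y' = a' +ᵥ e' → c y y' = a' - a)
    {B : Type v} [AddCommGroup B] (mk : G →+ B) (D : Coc ({i // i ∈ J} → ℝ × ℝ) B)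
    (σ : ({i // i ∈ J} → ℝ × ℝ) → Y) (hσ : ∀ m ∈ D.X, ∀ i : {i // i ∈ J}, k i (σ m) = m i)
    (hc : ∀ m m', D.c m m' = mk (c (σ m) (σ m'))) (hδ : D.δ = δ)
    (m : ℝ → ({i // i ∈ J} → ℝ × ℝ)) (hm : ContinuousOn m (Icc 0 1))
    (hmX : ∀ t ∈ Icc (0:ℝ) 1, m t ∈ D.X) (κ : ℝ → E) (hκ : ContinuousOn κ (Icc 0 1))
    (hl : ∀ t ∈ Icc (0:ℝ) 1, π (κ t) = h (σ (m t))) (a0 a1 : G)
    (h0 : e (σ (m 0)) = a0 +ᵥ κ 0) (h1 : e (σ (m 1)) = a1 +ᵥ κ 1) :
    V D m = mk a1 - mk a0 := by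
  have hθ : ∀ t : ℝ, ∃ a : G, t ∈ Icc (0:ℝ) 1 → e (σ (m t)) = a +ᵥ κ t := by
    intro t
    by_cases ht : t ∈ Icc (0:ℝ) 1
    · have : π (κ t) = π (e (σ (m t))) := by rw [hl t ht, he]
      obtain ⟨a, ha⟩ := (hcov.fib _ _).1 this
      exact ⟨a, fun _ => ha.symm⟩
    · exact ⟨0, fun h => absurd h ht⟩
  choose θ hθ using hθ
  have e0 : θ 0 = a0 := free hcov ((hθ 0 ⟨le_rfl, zero_le_one⟩).symm.trans h0)
  have e1 : θ 1 = a1 := free hcov ((hθ 1 ⟨zero_le_one, le_rfl⟩).symm.trans h1)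
  have hP : IsPrim D m (fun t => mk (θ t)) := by
    intro t ht
    obtain ⟨O, hO, htO, hO'⟩ := LP (σ (m t)) (κ t) (θ t) (hθ t ht)
    have c1 : ∀ᶠ s in 𝓝[Icc (0:ℝ) 1] t, dist (m t) (m s) < δ := by
      have hδ0 : 0 < δ := hδ ▸ D.δpos
      have := (hm t ht) (Metric.ball_mem_nhds (m t) hδ0)
      filter_upwards [this] with s hs
      rw [dist_comm]
      exact hs
    have c2 : ∀ᶠ s in 𝓝[Icc (0:ℝ) 1] t, κ s ∈ O := (hκ t ht) (hO.mem_nhds htO)
    filter_upwards [c1, c2, self_mem_nhdsWithin] with s hs1 hs2 hs3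
    rw [hc, hO' (σ (m s)) (κ s) (θ s) ?_ hs2 (hθ s hs3), map_sub]
    intro i hi
    rw [show k i (σ (m t)) = m t ⟨i, hi⟩ from hσ _ (hmX t ht) ⟨i, hi⟩,
      show k i (σ (m s)) = m s ⟨i, hi⟩ from hσ _ (hmX s hs3) ⟨i, hi⟩]
    exact lt_of_le_of_lt (dist_le_pi_dist _ _ _) hs1
  rw [hVB _ _ D m _ hm hmX hP, e0, e1]

end side

/-! ### the annular region -/

/-- the closed region between the squares of half-sides `1` and `2` -/
def Om : Set (ℝ × ℝ) :=
  {z | (z.1 ∈ Icc (-2:ℝ) 2 ∧ z.2 ∈ Icc (-2:ℝ) 2) ∧ (1 ≤ z.1 ∨ (z.1 ≤ -1 ∨ (1 ≤ z.2 ∨ z.2 ≤ -1)))}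

lemma om_closed : IsClosed Om := by
  have c1 : Continuous (fun z : ℝ × ℝ => z.1) := continuous_fst
  have c2 : Continuous (fun z : ℝ × ℝ => z.2) := continuous_snd
  refine IsClosed.inter (IsClosed.inter ?_ ?_) (IsClosed.union ?_ (IsClosed.union ?_
    (IsClosed.union ?_ ?_)))
  · exact isClosed_Icc.preimage c1
  · exact isClosed_Icc.preimage c2
  · exact isClosed_le continuous_const c1
  · exact isClosed_le c1 continuous_const
  · exact isClosed_le continuous_const c2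
  · exact isClosed_le c2 continuous_const

lemma om_compact : IsCompact Om := by
  refine (isCompact_Icc.prod isCompact_Icc : IsCompact (Icc (-2:ℝ) 2 ×ˢ Icc (-2:ℝ) 2)).of_isClosed_subset
    om_closed ?_
  intro z hz
  exact hz.1

open Classical in
/-- the map on the region -/
noncomputable def kap {K : Type x} (k : ℝ → K) (k0 : K) (z : ℝ × ℝ) : K :=
  if 1 ≤ z.1 then k ((z.2 + 1) / 2) else k0

lemma kap_cont {K : Type x} [TopologicalSpace K] (k : ℝ → K) (k0 : K) (hk : Continuous k)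
    (h0 : ∀ t ≤ 0, k t = k0) (h1 : ∀ t, 1 ≤ t → k t = k0) : ContinuousOn (kap k k0) Om := by
  have c1 : Continuous (fun z : ℝ × ℝ => z.1) := continuous_fst
  have c2 : Continuous (fun z : ℝ × ℝ => z.2) := continuous_snd
  set S1 : Set (ℝ × ℝ) := {z | 1 ≤ z.1} with hS1
  set S2 : Set (ℝ × ℝ) := {z | z.1 ≤ -1 ∨ (1 ≤ z.2 ∨ z.2 ≤ -1)} with hS2
  have hc1 : IsClosed S1 := isClosed_le continuous_const c1
  have hc2 : IsClosed S2 := (isClosed_le c1 continuous_const).union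
    ((isClosed_le continuous_const c2).union (isClosed_le c2 continuous_const))
  have hsub : Om ⊆ S1 ∪ S2 := fun z hz => hz.2
  refine ContinuousOn.mono ?_ hsub
  refine ContinuousOn.union_of_isClosed ?_ ?_ hc1 hc2
  · have : ContinuousOn (fun z : ℝ × ℝ => k ((z.2 + 1) / 2)) S1 :=
      (hk.comp (by fun_prop)).continuousOn
    refine this.congr ?_
    intro z hz
    have hz' : 1 ≤ z.1 := hz
    simp [kap, hz']
  · have : ContinuousOn (fun _ : ℝ × ℝ => k0) S2 := continuousOn_const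
    refine this.congr ?_
    intro z hz
    unfold kap
    split_ifs with h
    · rcases hz with hz | hz | hz
      · exfalso
        have : z.1 ≤ -1 := hz
        linarith
      · apply h1
        have : 1 ≤ z.2 := hz
        linarith
      · apply h0
        have : z.2 ≤ -1 := hz
        linarith
    · rfl

lemma emb_open : IsOpenEmbedding emb := by
  have := (OnePoint.isOpenEmbedding_coe (X := ℝ)).prodMap (OnePoint.isOpenEmbedding_coe (X := ℝ))
  exact this

/-- inverse of `emb` -/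
noncomputable def dec (q : OnePoint ℝ × OnePoint ℝ) : ℝ × ℝ := (q.1.elim 0 id, q.2.elim 0 id)

lemma dec_emb (z : ℝ × ℝ) : dec (emb z) = z := rfl

lemma dec_cont (z : ℝ × ℝ) : ContinuousAt dec (emb z) := by
  rw [← emb_open.continuousAt_iff]
  exact continuousAt_id

/-- the coordinate functions of the graphoid -/
noncomputable def kk (F : Set RF) : Bool ⊕ F → Graphoid F → ℝ × ℝ
  | Sum.inl true, p => sP p.1.1.1
  | Sum.inl false, p => sP p.1.1.2
  | Sum.inr f, p => sP (p.1.2 f)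

/-- the pairs of polynomials belonging to the coordinates -/
noncomputable def pp (F : Set RF) : Bool ⊕ F → Pr
  | Sum.inl true => (C X, 1)
  | Sum.inl false => (X, 1)
  | Sum.inr f => redPair f

lemma kk_cont (hs : Continuous sP) (F : Set RF) (i : Bool ⊕ F) : Continuous (kk F i) := by
  rcases i with (_ | _) | f
  · exact hs.comp (continuous_snd.comp (continuous_fst.comp continuous_subtype_val))
  · exact hs.comp (continuous_fst.comp (continuous_fst.comp continuous_subtype_val))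
  · exact hs.comp ((continuous_apply f).comp (continuous_snd.comp continuous_subtype_val))

lemma kk_sep (hs : Function.Injective sP) (F : Set RF) (p q : Graphoid F)
    (h : ∀ i, kk F i p = kk F i q) : p = q := by
  apply Subtype.ext
  refine Prod.ext (Prod.ext ?_ ?_) ?_
  · exact hs (h (Sum.inl true))
  · exact hs (h (Sum.inl false))
  · funext f
    exact hs (h (Sum.inr f))

lemma pp_rp (hr : ∀ f : RF, RP (redPair f)) (F : Set RF) (i : Bool ⊕ F) : RP (pp F i) := by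
  rcases i with (_ | _) | f
  · exact isRelPrime_one_right
  · exact isRelPrime_one_right
  · exact hr f

lemma kk_val (hv : ∀ f : RF, ∀ z ∈ dom f, sP (val f z) = Evl (redPair f) z)
    (hu : ∀ F : Set RF, ∀ z : ℝ × ℝ, ∀ p ∈ Graphoid F, p.1 = emb z → ∀ f : F, z ∈ dom (f : RF) →
      p.2 f = val (f : RF) z)
    (F : Set RF) (i : Bool ⊕ F) (p : Graphoid F) (z : ℝ × ℝ) (hz : p.1.1 = emb z)
    (hi : z ∉ Ind (pp F i)) : kk F i p = Evl (pp F i) z := by
  rcases i with (_ | _) | f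
  · simp only [kk, pp, hz, emb, sP, Evl, OnePoint.elim_some, ev_X, ev_one]
    simp
  · simp only [kk, pp, hz, emb, sP, Evl, OnePoint.elim_some, ev_CX, ev_one]
    simp
  · have := hu F z p.1 p.2 hz f hi
    simp only [kk, pp, this]
    exact hv f z hi

lemma kk_det (hs : Function.Injective sP) (F : Set RF) (p : Graphoid F) (z : ℝ × ℝ)
    (h1 : kk F (Sum.inl true) p = Evl (C X, 1) z) (h2 : kk F (Sum.inl false) p = Evl (X, 1) z) :
    p.1.1 = emb z := by
  refine Prod.ext ?_ ?_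
  · apply hs
    rw [show sP p.1.1.1 = Evl (C X, 1) z from h1]
    simp only [emb, sP, Evl, OnePoint.elim_some, ev_CX, ev_one]
    simp
  · apply hs
    rw [show sP p.1.1.2 = Evl (X, 1) z from h2]
    simp only [emb, sP, Evl, OnePoint.elim_some, ev_X, ev_one]
    simp

theorem main (hFIN : ∀ a : Pr, RP a → (Ind a).Finite) (hEVL : StmEVL) (hCORE : StmCORE.{v})
    (hCOV : StmCOV.{v, w, x}) (hVB : StmVB.{v})
    (hG1 : Continuous sP ∧ Function.Injective sP)
    (hG2 : ∀ f : RF, RP (redPair f))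
    (hG3 : ∀ f : RF, ∀ z ∈ dom f, sP (val f z) = Evl (redPair f) z)
    (hG4 : ∀ F : Set RF, IsClosed (Graphoid F))
    (hG5 : ∀ F : Set RF, ∀ z : ℝ × ℝ, ∃ p ∈ Graphoid F, p.1 = emb z)
    (hG6 : ∀ F : Set RF, ∀ z : ℝ × ℝ, ∀ p ∈ Graphoid F, p.1 = emb z → ∀ f : F, z ∈ dom (f : RF) →
      p.2 f = val (f : RF) z)
    (F : Set RF) (G : Type v) [AddCommGroup G] (hG : ∃ g : G, ∀ h : G, h + h ≠ g)
    (K : Type x) [TopologicalSpace K] (hK : IsEM1.{v, w, x} G K) :
    ∃ A : Set (Graphoid F), IsClosed A ∧ ∃ f : C(A, K),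
      ¬ ∃ F' : C(Graphoid F, K), ∀ a : A, F' a = f a := by
  classical
  obtain ⟨g, hg⟩ := hG
  obtain ⟨E, tE, aE, π, cE, hcov⟩ := hK
  obtain ⟨e0⟩ : Nonempty E := inferInstance
  let γ : Path e0 (g +ᵥ e0) := PathConnectedSpace.somePath _ _
  have hfibg : π (g +ᵥ e0) = π e0 := ((hcov.fib _ _).2 ⟨g, rfl⟩).symm
  let k : ℝ → K := fun t => π (γ.extend t)
  have hk : Continuous k := hcov.quot.continuous.comp γ.continuous_extend
  have h0 : ∀ t ≤ 0, k t = π e0 := by
    intro t ht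
    show π (γ.extend t) = π e0
    rw [γ.extend_of_le_zero ht]
  have h1 : ∀ t, 1 ≤ t → k t = π e0 := by
    intro t ht
    show π (γ.extend t) = π e0
    rw [γ.extend_of_one_le ht, hfibg]
  have hkc := kap_cont k (π e0) hk h0 h1
  have hclOm : IsClosed (emb '' Om) := (om_compact.image emb_open.continuous).isClosed
  let A : Set (Graphoid F) := {p | p.1.1 ∈ emb '' Om}
  have hA : IsClosed A := hclOm.preimage (continuous_fst.comp continuous_subtype_val)
  have hcd : ContinuousOn (fun q => kap k (π e0) (dec q)) (emb '' Om) := by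
    refine hkc.comp ?_ ?_
    · rintro _ ⟨z, hz, rfl⟩
      exact (dec_cont z).continuousWithinAt
    · rintro _ ⟨z, hz, rfl⟩
      exact hz
  let f : C(A, K) := ⟨fun p => kap k (π e0) (dec p.1.1.1), by
    refine hcd.comp_continuous (f := fun p : A => p.1.1.1) ?_ ?_
    · exact continuous_fst.comp (continuous_subtype_val.comp continuous_subtype_val)
    · exact fun p => p.2⟩
  refine ⟨A, hA, f, ?_⟩
  rintro ⟨F', hF'⟩
  haveI : CompactSpace (Graphoid F) := isCompact_iff_compactSpace.1 (hG4 F).isCompact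
  obtain ⟨e, J, δ, c, hJ0, hδ, he, hadd, LP⟩ := hCOV G E K π hcov (Graphoid F) (Bool ⊕ F) (kk F)
    (kk_cont hG1.1 F) (kk_sep hG1.2 F) F' {Sum.inl true, Sum.inl false}
  have hJt : Sum.inl true ∈ J := hJ0 (by simp)
  have hJf : Sum.inl false ∈ J := hJ0 (by simp)
  let fam : {i // i ∈ J} → Pr := fun i => pp F i
  have hrp : ∀ i, RP (fam i) := fun i => pp_rp hG2 F i
  have hbad : (Bad fam).Finite := CORE.bad_fin hFIN fam hrp
  let pr : Graphoid F → ({i // i ∈ J} → ℝ × ℝ) := fun y i => kk F i y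
  have hpr : Continuous pr := continuous_pi (fun i => kk_cont hG1.1 F i)
  haveI : Nonempty (Graphoid F) := by
    obtain ⟨p, hp, -⟩ := hG5 F 0
    exact ⟨⟨p, hp⟩⟩
  let σ : ({i // i ∈ J} → ℝ × ℝ) → Graphoid F := Function.invFun pr
  have hσ : ∀ m ∈ range pr, pr (σ m) = m := fun m hm => Function.invFun_eq hm
  let H2 : AddSubgroup G := (nsmulAddMonoidHom (α := G) 2).range
  let mk : G →+ G ⧸ H2 := QuotientAddGroup.mk' H2
  have hB : ∀ b : G ⧸ H2, b + b = 0 := by
    intro b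
    obtain ⟨a, rfl⟩ := QuotientAddGroup.mk'_surjective H2 b
    rw [← map_add]
    refine (QuotientAddGroup.eq_zero_iff _).2 ⟨a, ?_⟩
    simp [two_nsmul]
  have hgB : mk g ≠ 0 := by
    intro h
    obtain ⟨a, ha⟩ := (QuotientAddGroup.eq_zero_iff _).1 h
    apply hg a
    simpa [two_nsmul] using ha
  let D : Coc ({i // i ∈ J} → ℝ × ℝ) (G ⧸ H2) :=
    { X := range pr
      closed := (isCompact_range hpr).isClosed
      c := fun m m' => mk (c (σ m) (σ m'))
      δ := δ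
      δpos := hδ
      add := by
        intro p hp q hq r hr h1 h2 h3
        show mk _ + mk _ = mk _
        rw [← map_add, hadd]
        · intro i hi
          have e1 := congrFun (hσ p hp) ⟨i, hi⟩
          have e2 := congrFun (hσ q hq) ⟨i, hi⟩
          simp only [pr] at e1 e2
          rw [e1, e2]
          exact lt_of_le_of_lt (dist_le_pi_dist _ _ _) h1
        · intro i hi
          have e1 := congrFun (hσ q hq) ⟨i, hi⟩
          have e2 := congrFun (hσ r hr) ⟨i, hi⟩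
          simp only [pr] at e1 e2
          rw [e1, e2]
          exact lt_of_le_of_lt (dist_le_pi_dist _ _ _) h2
        · intro i hi
          have e1 := congrFun (hσ p hp) ⟨i, hi⟩
          have e2 := congrFun (hσ r hr) ⟨i, hi⟩
          simp only [pr] at e1 e2
          rw [e1, e2]
          exact lt_of_le_of_lt (dist_le_pi_dist _ _ _) h3 }
  have hmem : ∀ z ∉ Bad fam, Phi fam z ∈ D.X := by
    intro z hz
    obtain ⟨p, hp, hpz⟩ := hG5 F z
    refine ⟨⟨p, hp⟩, ?_⟩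
    funext i
    refine kk_val hG3 hG6 F i ⟨p, hp⟩ z hpz ?_
    intro hi
    exact hz (mem_iUnion.2 ⟨i, hi⟩)
  have hcont : ContinuousOn (Phi fam) (Bad fam)ᶜ := CORE.phi_cont hEVL.1 fam
  -- choice of the square
  obtain ⟨s, hs, hsT⟩ : ∃ s ∈ Ioo (1:ℝ) 2, s ∉ ((fun z : ℝ × ℝ => z.1) '' Bad fam ∪
      (fun z : ℝ × ℝ => -z.1) '' Bad fam) ∪ ((fun z : ℝ × ℝ => z.2) '' Bad fam ∪
      (fun z : ℝ × ℝ => -z.2) '' Bad fam) := by
    have hT : (((fun z : ℝ × ℝ => z.1) '' Bad fam ∪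
      (fun z : ℝ × ℝ => -z.1) '' Bad fam) ∪ ((fun z : ℝ × ℝ => z.2) '' Bad fam ∪
      (fun z : ℝ × ℝ => -z.2) '' Bad fam)).Finite :=
      ((hbad.image _).union (hbad.image _)).union ((hbad.image _).union (hbad.image _))
    obtain ⟨s, hs⟩ := ((Ioo_infinite (by norm_num : (1:ℝ) < 2)).diff hT).nonempty
    exact ⟨s, hs.1, hs.2⟩
  have hgen : ∀ z ∈ Bad fam, z.1 ≠ -s ∧ z.1 ≠ s ∧ z.2 ≠ -s ∧ z.2 ≠ s := by
    intro z hz
    refine ⟨?_, ?_, ?_, ?_⟩
    · intro h
      exact hsT (Or.inl (Or.inr ⟨z, hz, by simp [h]⟩))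
    · intro h
      exact hsT (Or.inl (Or.inl ⟨z, hz, by simp [h]⟩))
    · intro h
      exact hsT (Or.inr (Or.inr ⟨z, hz, by simp [h]⟩))
    · intro h
      exact hsT (Or.inr (Or.inl ⟨z, hz, by simp [h]⟩))
  obtain ⟨hs1, hs2⟩ := hs
  have hcore := hCORE (G ⧸ H2) {i // i ∈ J} fam D (-s) s (-s) s hB hrp hmem (by linarith)
    (by linarith) hgen
  -- points over the region
  have hover : ∀ z ∈ Om, z ∉ Bad fam → F' (σ (Phi fam z)) = kap k (π e0) z := by
    intro z hz hzb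
    have hx := hσ _ (hmem z hzb)
    have e1 : kk F (Sum.inl true) (σ (Phi fam z)) = Evl (C X, 1) z := by
      have := congrFun hx ⟨Sum.inl true, hJt⟩
      exact this
    have e2 : kk F (Sum.inl false) (σ (Phi fam z)) = Evl (X, 1) z := by
      have := congrFun hx ⟨Sum.inl false, hJf⟩
      exact this
    have e3 := kk_det hG1.2 F _ z e1 e2
    have hyA : σ (Phi fam z) ∈ A := by
      show (σ (Phi fam z)).1.1 ∈ emb '' Om
      rw [e3]
      exact ⟨z, hz, rfl⟩
    have e4 := hF' ⟨_, hyA⟩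
    have e5 : F' (σ (Phi fam z)) = kap k (π e0) (dec (σ (Phi fam z)).1.1) := e4
    rw [e5, e3, dec_emb]
  have hsideV : ∀ (p q : ℝ × ℝ) (κ : ℝ → E), ContinuousOn κ (Icc 0 1) →
      (∀ t ∈ Icc (0:ℝ) 1, p + t • (q - p) ∈ Om ∧ p + t • (q - p) ∉ Bad fam ∧
        kap k (π e0) (p + t • (q - p)) = π (κ t)) →
      ∀ a0 a1 : G, e (σ (Phi fam p)) = a0 +ᵥ κ 0 → e (σ (Phi fam q)) = a1 +ᵥ κ 1 →
      seg D (Phi fam) p q = mk a1 - mk a0 := by
    intro p q κ hκ hz a0 a1 ha0 ha1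
    refine side hVB hcov (kk F) F' e he J δ c LP mk D σ ?_ (fun _ _ => rfl) rfl
      (fun t => Phi fam (p + t • (q - p))) ?_ ?_ κ hκ ?_ a0 a1 ?_ ?_
    · intro m hm i
      exact congrFun (hσ m hm) i
    · refine hcont.comp ?_ ?_
      · have : Continuous (fun t : ℝ => p + t • (q - p)) := by fun_prop
        exact this.continuousOn
      · intro t ht
        exact (hz t ht).2.1
    · intro t ht
      exact hmem _ (hz t ht).2.1
    · intro t ht
      rw [hover _ (hz t ht).1 (hz t ht).2.1]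
      exact (hz t ht).2.2.symm
    · simpa using ha0
    · simpa using ha1
  have hcorner : ∀ z ∈ Om, z ∉ Bad fam → kap k (π e0) z = π e0 →
      ∃ a : G, e (σ (Phi fam z)) = a +ᵥ e0 := by
    intro z hz hzb hkz
    have : π e0 = π (e (σ (Phi fam z))) := by
      rw [he, hover z hz hzb, hkz]
    obtain ⟨a, ha⟩ := (hcov.fib _ _).1 this
    exact ⟨a, ha.symm⟩
  -- membership of the boundary of the square
  have hOm : ∀ a b : ℝ, a ∈ Icc (-s) s → b ∈ Icc (-s) s → (a = s ∨ a = -s ∨ b = s ∨ b = -s) →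
      (a, b) ∈ Om ∧ (a, b) ∉ Bad fam := by
    intro a b ha hb hab
    constructor
    · refine ⟨⟨⟨?_, ?_⟩, ⟨?_, ?_⟩⟩, ?_⟩
      · show (-2:ℝ) ≤ a
        linarith [ha.1]
      · show a ≤ 2
        linarith [ha.2]
      · show (-2:ℝ) ≤ b
        linarith [hb.1]
      · show b ≤ 2
        linarith [hb.2]
      · show 1 ≤ a ∨ a ≤ -1 ∨ 1 ≤ b ∨ b ≤ -1
        rcases hab with h | h | h | h
        · left; linarith
        · right; left; linarith
        · right; right; left; linarith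
        · right; right; right; linarith
    · intro h
      have h' := hgen _ h
      simp only at h'
      rcases hab with h'' | h'' | h'' | h''
      · exact h'.2.1 h''
      · exact h'.1 h''
      · exact h'.2.2.2 h''
      · exact h'.2.2.1 h''
  have hss : (-s : ℝ) ≤ s := by linarith
  have hkap1 : ∀ a : ℝ, kap k (π e0) (a, s) = π e0 := by
    intro a
    unfold kap
    split_ifs
    · exact h1 _ (by show (1:ℝ) ≤ (s + 1) / 2; linarith)
    · rfl
  have hkap2 : ∀ a : ℝ, kap k (π e0) (a, -s) = π e0 := by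
    intro a
    unfold kap
    split_ifs
    · exact h0 _ (by show (-s + 1) / 2 ≤ 0; linarith)
    · rfl
  have hkap3 : ∀ b : ℝ, kap k (π e0) (-s, b) = π e0 := by
    intro b
    unfold kap
    split_ifs with h
    · exfalso
      have : (1:ℝ) ≤ -s := h
      linarith
    · rfl
  have hkap4 : ∀ b : ℝ, kap k (π e0) (s, b) = k ((b + 1) / 2) := by
    intro b
    unfold kap
    split_ifs with h
    · rfl
    · exfalso
      exact h (by show (1:ℝ) ≤ s; linarith)
  obtain ⟨c11, hc11⟩ := hcorner (-s, -s) (hOm _ _ ⟨le_rfl, hss⟩ ⟨le_rfl, hss⟩ (by simp)).1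
    (hOm _ _ ⟨le_rfl, hss⟩ ⟨le_rfl, hss⟩ (by simp)).2 (hkap2 _)
  obtain ⟨c21, hc21⟩ := hcorner (s, -s) (hOm _ _ ⟨hss, le_rfl⟩ ⟨le_rfl, hss⟩ (by simp)).1
    (hOm _ _ ⟨hss, le_rfl⟩ ⟨le_rfl, hss⟩ (by simp)).2 (hkap2 _)
  obtain ⟨c12, hc12⟩ := hcorner (-s, s) (hOm _ _ ⟨le_rfl, hss⟩ ⟨hss, le_rfl⟩ (by simp)).1
    (hOm _ _ ⟨le_rfl, hss⟩ ⟨hss, le_rfl⟩ (by simp)).2 (hkap1 _)
  obtain ⟨c22, hc22⟩ := hcorner (s, s) (hOm _ _ ⟨hss, le_rfl⟩ ⟨hss, le_rfl⟩ (by simp)).1
    (hOm _ _ ⟨hss, le_rfl⟩ ⟨hss, le_rfl⟩ (by simp)).2 (hkap1 _)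
  have hmid : ∀ t ∈ Icc (0:ℝ) 1, -s + t * (s - -s) ∈ Icc (-s) s := by
    intro t ht
    constructor
    · nlinarith [ht.1, ht.2]
    · nlinarith [ht.1, ht.2]
  have hbot : seg D (Phi fam) (-s, -s) (s, -s) = mk c21 - mk c11 := by
    refine hsideV (-s, -s) (s, -s) (fun _ => e0) continuousOn_const ?_ _ _ hc11 hc21
    intro t ht
    have e : ((-s, -s) : ℝ × ℝ) + t • ((s, -s) - (-s, -s)) = (-s + t * (s - -s), -s) := by
      ext <;> simp
    rw [e]
    exact ⟨(hOm _ _ (hmid t ht) ⟨le_rfl, hss⟩ (by simp)).1,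
      (hOm _ _ (hmid t ht) ⟨le_rfl, hss⟩ (by simp)).2, hkap2 _⟩
  have htop : seg D (Phi fam) (-s, s) (s, s) = mk c22 - mk c12 := by
    refine hsideV (-s, s) (s, s) (fun _ => e0) continuousOn_const ?_ _ _ hc12 hc22
    intro t ht
    have e : ((-s, s) : ℝ × ℝ) + t • ((s, s) - (-s, s)) = (-s + t * (s - -s), s) := by
      ext <;> simp
    rw [e]
    exact ⟨(hOm _ _ (hmid t ht) ⟨hss, le_rfl⟩ (by simp)).1,
      (hOm _ _ (hmid t ht) ⟨hss, le_rfl⟩ (by simp)).2, hkap1 _⟩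
  have hleft : seg D (Phi fam) (-s, -s) (-s, s) = mk c12 - mk c11 := by
    refine hsideV (-s, -s) (-s, s) (fun _ => e0) continuousOn_const ?_ _ _ hc11 hc12
    intro t ht
    have e : ((-s, -s) : ℝ × ℝ) + t • ((-s, s) - (-s, -s)) = (-s, -s + t * (s - -s)) := by
      ext <;> simp
    rw [e]
    exact ⟨(hOm _ _ ⟨le_rfl, hss⟩ (hmid t ht) (by simp)).1,
      (hOm _ _ ⟨le_rfl, hss⟩ (hmid t ht) (by simp)).2, hkap3 _⟩
  have hright : seg D (Phi fam) (s, -s) (s, s) = mk (c22 - g) - mk c21 := by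
    refine hsideV (s, -s) (s, s) (fun t => γ.extend ((-s + t * (s - -s) + 1) / 2)) ?_ ?_ _ _ ?_ ?_
    · exact (γ.continuous_extend.comp (by fun_prop)).continuousOn
    · intro t ht
      have e : ((s, -s) : ℝ × ℝ) + t • ((s, s) - (s, -s)) = (s, -s + t * (s - -s)) := by
        ext <;> simp
      rw [e]
      exact ⟨(hOm _ _ ⟨hss, le_rfl⟩ (hmid t ht) (by simp)).1,
        (hOm _ _ ⟨hss, le_rfl⟩ (hmid t ht) (by simp)).2, hkap4 _⟩
    · show _ = c21 +ᵥ γ.extend ((-s + 0 * (s - -s) + 1) / 2)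
      rw [γ.extend_of_le_zero (by linarith)]
      exact hc21
    · show _ = (c22 - g) +ᵥ γ.extend ((-s + 1 * (s - -s) + 1) / 2)
      rw [γ.extend_of_one_le (by linarith), hc22, vadd_vadd, sub_add_cancel]
  have hsum : bd D (Phi fam) (-s) s (-s) s = - mk g := by
    unfold bd
    rw [hbot, htop, hleft, hright, map_sub]
    have h22 := hB (mk c22)
    have h11 := hB (mk c11)
    have : mk c21 - mk c11 + (mk c22 - mk g - mk c21) + (mk c22 - mk c12) + (mk c12 - mk c11) =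
        (mk c22 + mk c22) - (mk c11 + mk c11) - mk g := by abel
    rw [this, h22, h11]
    simp
  rw [hsum, neg_eq_zero] at hcore
  exact hgB hcore

end Pool.Agent.H87.GR.FIN
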