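import Pool.Agent.H87.GR.Stm

/-!
Project GR, part FINI: a coprime pair has finitely many indeterminacy points.
-/

namespace Pool.Agent.H87.GR.FINI

open Polynomial

lemma ev_C (r : ℝ[X]) (z : ℝ × ℝ) : ev (C r) z = r.eval z.1 := by
  simp [ev, evalEval]

lemma root_of_ind {a : Pr} {r : ℝ[X]} {A B : P2} (h : A * a.1 + B * a.2 = C r) {z : ℝ × ℝ}
    (hz : z ∈ Ind a) : r.eval z.1 = 0 := by
  have h1 := congrArg (fun p => ev p z) h
  simp only [ev_add, ev_mul, ev_C] at h1
  obtain ⟨h2, h3⟩ := hz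
  rw [h2, h3] at h1
  simpa using h1.symm

theorem part : StmFINI := by
  intro hB a ha
  obtain ⟨r, hr, A, B, h⟩ := hB a ha
  obtain ⟨r', hr', A', B', h'⟩ := hB (swp a) ha.swp
  apply ((r.roots.toFinset.finite_toSet).prod (r'.roots.toFinset.finite_toSet)).subset
  intro z hz
  have h1 := root_of_ind h hz
  have h2 : (z.2, z.1) ∈ Ind (swp a) := by
    refine ⟨?_, ?_⟩
    · show ev (sw a.1) (z.2, z.1) = 0
      rw [ev_sw]; exact hz.1
    · show ev (sw a.2) (z.2, z.1) = 0
      rw [ev_sw]; exact hz.2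
  have h3 := root_of_ind h' h2
  refine ⟨?_, ?_⟩
  · simpa [hr] using h1
  · simpa [hr'] using h3

end Pool.Agent.H87.GR.FINI
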