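import Pool.Agent.H87.GR.Stm

/-!
Project GR (MP_294eca_gt), part GRA: compactness of the graphoid, existence of points over a
point of the plane and computation of the coordinates at determinate points.
-/

namespace Pool.Agent.H87.GR.GRA

open Topology Filter Set Polynomial

@[simp] lemma sP_coe (s : ℝ) : sP (s : OnePoint ℝ) = (s ^ 2 / (s ^ 2 + 1), s / (s ^ 2 + 1)) := rfl

@[simp] lemma sP_infty : sP OnePoint.infty = (1, 0) := rfl

lemma continuous_sP : Continuous sP := by
  rw [OnePoint.continuous_iff]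
  have hpos : ∀ s : ℝ, (s ^ 2 + 1) ≠ 0 := fun s => by positivity
  have hcont : Continuous fun s : ℝ => sP (s : OnePoint ℝ) := by
    have h1 : Continuous fun s : ℝ => (s ^ 2 / (s ^ 2 + 1), s / (s ^ 2 + 1)) := by
      refine Continuous.prodMk ?_ ?_
      · exact (continuous_pow 2).div ((continuous_pow 2).add continuous_const) hpos
      · exact continuous_id.div ((continuous_pow 2).add continuous_const) hpos
    exact h1
  refine ⟨?_, hcont⟩
  rw [Filter.coclosedCompact_eq_cocompact]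
  have hn : Tendsto (fun s : ℝ => ‖s‖) (cocompact ℝ) atTop := tendsto_norm_cocompact_atTop
  have h0 : Tendsto (fun s : ℝ => ‖s‖⁻¹) (cocompact ℝ) (𝓝 0) := tendsto_inv_atTop_zero.comp hn
  have hev : ∀ᶠ s : ℝ in cocompact ℝ, 1 ≤ ‖s‖ := hn.eventually_ge_atTop 1
  have h1 : Tendsto (fun s : ℝ => s / (s ^ 2 + 1)) (cocompact ℝ) (𝓝 0) := by
    refine squeeze_zero_norm' ?_ h0
    filter_upwards [hev] with s hs
    rw [norm_div, Real.norm_of_nonneg (by positivity : (0:ℝ) ≤ s ^ 2 + 1),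
      div_le_iff₀ (by positivity)]
    have : s ^ 2 = ‖s‖ ^ 2 := by rw [Real.norm_eq_abs, sq_abs]
    rw [this]
    have h3 : 0 < ‖s‖ := by linarith
    field_simp
    nlinarith
  have h2 : Tendsto (fun s : ℝ => s ^ 2 / (s ^ 2 + 1)) (cocompact ℝ) (𝓝 1) := by
    have h3 : Tendsto (fun s : ℝ => 1 / (s ^ 2 + 1)) (cocompact ℝ) (𝓝 0) := by
      refine squeeze_zero_norm' ?_ h0
      filter_upwards [hev] with s hs
      rw [norm_div, Real.norm_of_nonneg (by positivity : (0:ℝ) ≤ s ^ 2 + 1),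
        div_le_iff₀ (by positivity)]
      have : s ^ 2 = ‖s‖ ^ 2 := by rw [Real.norm_eq_abs, sq_abs]
      rw [this, norm_one]
      have h3 : 0 < ‖s‖ := by linarith
      field_simp
      nlinarith
    have h4 : Tendsto (fun s : ℝ => 1 - 1 / (s ^ 2 + 1)) (cocompact ℝ) (𝓝 (1 - 0)) :=
      tendsto_const_nhds.sub h3
    rw [sub_zero] at h4
    refine h4.congr fun s => ?_
    have := hpos s
    field_simp
    ring
  exact h2.prodMk_nhds h1

lemma injective_sP : Function.Injective sP := by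
  have h1 : ∀ s : ℝ, sP (s : OnePoint ℝ) ≠ sP OnePoint.infty := by
    intro s hs
    rw [sP_coe, sP_infty, Prod.mk.injEq] at hs
    have h2 := hs.1
    rw [div_eq_one_iff_eq (by positivity)] at h2
    linarith
  intro s t hst
  induction s using OnePoint.rec with
  | infty =>
    induction t using OnePoint.rec with
    | infty => rfl
    | coe t => exact absurd hst.symm (h1 t)
  | coe s =>
    induction t using OnePoint.rec with
    | infty => exact absurd hst (h1 s)
    | coe t =>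
      rw [sP_coe, sP_coe, Prod.mk.injEq] at hst
      obtain ⟨h2, h3⟩ := hst
      rw [div_eq_div_iff (by positivity) (by positivity)] at h2 h3
      have h4 : s ^ 2 = t ^ 2 := by linarith
      have h5 : s * (t ^ 2 + 1) = t * (t ^ 2 + 1) := by rw [h3, h4]
      have h6 : s = t := mul_right_cancel₀ (by positivity) h5
      rw [h6]

lemma sP_val (f : RF) (z : ℝ × ℝ) (hz : z ∈ dom f) : sP (val f z) = Evl (redPair f) z := by
  unfold val
  by_cases h : ev (redPair f).2 z = 0
  · rw [if_pos h, sP_infty]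
    have h1 : ev (redPair f).1 z ≠ 0 := fun h1 => hz ⟨h1, h⟩
    unfold Evl
    rw [h]
    have h2 : ev (redPair f).1 z ^ 2 ≠ 0 := pow_ne_zero 2 h1
    simp [h2]
  · rw [if_neg h, sP_coe]
    unfold Evl
    have h1 : ev (redPair f).1 z ^ 2 + ev (redPair f).2 z ^ 2 ≠ 0 := by
      have := sq_nonneg (ev (redPair f).1 z)
      have h3 : 0 < ev (redPair f).2 z ^ 2 := by positivity
      positivity
    have h2 : (ev (redPair f).1 z / ev (redPair f).2 z) ^ 2 + 1 ≠ 0 := by positivity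
    congr 1
    · rw [div_eq_div_iff h2 h1]
      field_simp
    · rw [div_eq_div_iff h2 h1]
      field_simp

lemma continuous_emb : Continuous emb :=
  (OnePoint.continuous_coe.comp continuous_fst).prodMk (OnePoint.continuous_coe.comp continuous_snd)

theorem part : StmGRA := by
  intro hEVL hFINI hBEZ
  have hRP : ∀ f : RF, RP (redPair f) := fun f => IsFractionRing.num_den_reduced P2 f
  refine ⟨⟨continuous_sP, injective_sP⟩, hRP, sP_val, ?_, ?_, ?_⟩
  · intro F
    rw [← isOpen_compl_iff, isOpen_iff_mem_nhds]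
    intro p hp
    have hp' : ¬ ∀ O ∈ 𝓝 p.1, ∀ (E : Finset F) (U : F → Set (OnePoint ℝ)),
      (∀ f ∈ E, U f ∈ 𝓝 (p.2 f)) →
        ∃ z' ∈ O, ∀ f ∈ E, ∃ w : ℝ × ℝ, emb w = z' ∧ w ∈ dom (f : RF) ∧ val (f : RF) w ∈ U f := hp
    push Not at hp'
    obtain ⟨O, hO, E, U, hU, hno⟩ := hp'
    have h1 : ∀ᶠ q : (OnePoint ℝ × OnePoint ℝ) × (F → OnePoint ℝ) in 𝓝 p, O ∈ 𝓝 q.1 :=
      continuous_fst.continuousAt.eventually (eventually_mem_nhds_iff.2 hO)
    have h2 : ∀ᶠ q : (OnePoint ℝ × OnePoint ℝ) × (F → OnePoint ℝ) in 𝓝 p,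
        ∀ f ∈ E, U f ∈ 𝓝 (q.2 f) := by
      rw [Filter.eventually_all_finset]
      intro f hf
      have hc : Continuous fun q : (OnePoint ℝ × OnePoint ℝ) × (F → OnePoint ℝ) => q.2 f :=
        (continuous_apply f).comp continuous_snd
      exact hc.continuousAt.eventually (eventually_mem_nhds_iff.2 (hU f hf))
    filter_upwards [h1, h2] with q hq1 hq2 hq
    obtain ⟨z', hz', hz2⟩ := hq O hq1 E U hq2
    obtain ⟨f, hf, hf2⟩ := hno z' hz'
    obtain ⟨w, hw1, hw2, hw3⟩ := hz2 f hf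
    exact hf2 w hw1 hw2 hw3
  · intro F z
    haveI : (𝓝[≠] z).NeBot := Module.punctured_nhds_neBot ℝ (ℝ × ℝ) z
    let 𝓤 : Ultrafilter (ℝ × ℝ) := Ultrafilter.of (𝓝[≠] z)
    have hU0 : (𝓤 : Filter (ℝ × ℝ)) ≤ 𝓝[≠] z := Ultrafilter.of_le _
    have hU1 : (𝓤 : Filter (ℝ × ℝ)) ≤ 𝓝 z := hU0.trans nhdsWithin_le_nhds
    have hU2 : (𝓤 : Filter (ℝ × ℝ)) ≤ cofinite := hU0.trans (nhdsNE_le_cofinite z)
    have hlim : ∀ f : F, ∃ y : OnePoint ℝ, Tendsto (val (f : RF)) 𝓤 (𝓝 y) := by
      intro f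
      obtain ⟨y, -, hy⟩ := isCompact_univ.ultrafilter_le_nhds (𝓤.map (val (f : RF))) (by simp)
      exact ⟨y, hy⟩
    choose y hy using hlim
    refine ⟨(emb z, y), ?_, rfl⟩
    intro O hO E U hU
    have h1 : ∀ᶠ w in (𝓤 : Filter (ℝ × ℝ)), emb w ∈ O :=
      hU1 (continuous_emb.continuousAt.eventually_mem hO)
    have h2 : ∀ᶠ w in (𝓤 : Filter (ℝ × ℝ)), ∀ f ∈ E, w ∈ dom (f : RF) ∧ val (f : RF) w ∈ U f := by
      rw [Filter.eventually_all_finset]
      intro f hf
      have h3 : ∀ᶠ w in (𝓤 : Filter (ℝ × ℝ)), w ∈ dom (f : RF) := by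
        apply hU2
        have := hFINI hBEZ (redPair (f : RF)) (hRP f)
        exact this.compl_mem_cofinite
      exact h3.and ((hy f).eventually_mem (hU f hf))
    obtain ⟨w, hw1, hw2⟩ := (h1.and h2).exists
    exact ⟨emb w, hw1, fun f hf => ⟨w, rfl, hw2 f hf⟩⟩
  · intro F z p hp hpz f hf
    apply injective_sP
    rw [sP_val (f : RF) z hf]
    by_contra hne
    obtain ⟨A, B, hA, hB, hAm, hBm, hAB⟩ := t2_separation hne
    have hopen : IsOpen (dom (f : RF)) := by
      have := hFINI hBEZ (redPair (f : RF)) (hRP f)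
      exact this.isClosed.isOpen_compl
    have hcont : ContinuousAt (Evl (redPair (f : RF))) z :=
      (hEVL.1 (redPair (f : RF))).continuousAt (hopen.mem_nhds hf)
    have hN : {w | Evl (redPair (f : RF)) w ∈ B} ∈ 𝓝 z := hcont.eventually_mem (hB.mem_nhds hBm)
    have hemb : IsOpenEmbedding emb :=
      (OnePoint.isOpenEmbedding_coe (X := ℝ)).prodMap (OnePoint.isOpenEmbedding_coe (X := ℝ))
    have hO : emb '' {w | Evl (redPair (f : RF)) w ∈ B} ∈ 𝓝 p.1 := by
      rw [hpz]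
      exact hemb.image_mem_nhds.2 hN
    obtain ⟨z', ⟨w0, hw0, hw0'⟩, hz2⟩ := hp _ hO {f} (fun _ => sP ⁻¹' A) (by
      intro g hg
      rw [Finset.mem_singleton] at hg
      subst hg
      exact continuous_sP.continuousAt.preimage_mem_nhds (hA.mem_nhds hAm))
    obtain ⟨w, hw1, hw2, hw3⟩ := hz2 f (Finset.mem_singleton_self f)
    have hww : w = w0 := hemb.injective (hw1.trans hw0'.symm)
    subst hww
    have h5 : sP (val (f : RF) w) ∈ A := hw3
    rw [sP_val (f : RF) w hw2] at h5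
    exact Set.disjoint_left.1 hAB h5 hw0

end Pool.Agent.H87.GR.GRA
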