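import Pool.Agent.H87.GR.Stm

/-! Project GR, part PRIM (helper27): uniform primitives on compact convex sets. -/

namespace Pool.Agent.H87.GR.PRIM

open Topology Set

universe u

theorem part : StmPRIM.{u} := by
  intro M B _ _ D K hconv hcomp H hH hX
  rcases K.eq_empty_or_nonempty with hK | ⟨z0, hz0⟩
  · subst hK
    exact ⟨1, one_pos, fun _ => 0, fun z hz => absurd hz (by simp)⟩
  obtain ⟨η1, hη1, hu⟩ := Metric.uniformContinuousOn_iff.1
    (hcomp.uniformContinuousOn_of_continuous hH) D.δ D.δpos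
  obtain ⟨R, hR⟩ := hcomp.isBounded.subset_closedBall z0
  have hR' : ∀ z ∈ K, dist z z0 ≤ R := fun z hz => by simpa using hR hz
  have hR0 : 0 ≤ R := le_trans dist_nonneg (hR' z0 hz0)
  obtain ⟨n, hn⟩ := exists_nat_gt (R / (η1 / 2))
  have hn0 : (0:ℝ) < n := lt_of_le_of_lt (by positivity) hn
  have hnR : R / n < η1 / 2 := by
    rw [div_lt_iff₀ (by positivity)] at hn
    rw [div_lt_iff₀ hn0]
    linarith [mul_comm (n:ℝ) (η1/2)]
  let p : ℕ → ℝ × ℝ → ℝ × ℝ := fun i z => z0 + ((i:ℝ)/n) • (z - z0)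
  have hpK : ∀ i ≤ n, ∀ z ∈ K, p i z ∈ K := by
    intro i hi z hz
    have h1 : (0:ℝ) ≤ (i:ℝ)/n := by positivity
    have h2 : (i:ℝ)/n ≤ 1 := by
      rw [div_le_one hn0]; exact_mod_cast hi
    exact hconv.add_smul_sub_mem hz0 hz ⟨h1, h2⟩
  have hdist1 : ∀ i, ∀ z ∈ K, dist (p i z) (p (i+1) z) < η1 / 2 := by
    intro i z hz
    have h1 : p i z - p (i+1) z = (-(1/(n:ℝ))) • (z - z0) := by
      simp only [p]
      rw [add_sub_add_left_eq_sub, ← sub_smul]
      congr 1
      push_cast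
      field_simp
      ring
    rw [dist_eq_norm, h1, norm_smul, ← dist_eq_norm]
    have h2 : ‖(-(1/(n:ℝ)))‖ = 1/n := by
      rw [norm_neg, Real.norm_of_nonneg (by positivity)]
    rw [h2]
    calc 1/(n:ℝ) * dist z z0 ≤ 1/n * R := by
          apply mul_le_mul_of_nonneg_left (hR' z hz) (by positivity)
      _ = R / n := by ring
      _ < η1/2 := hnR
  have hdist2 : ∀ i ≤ n, ∀ z z', dist (p i z) (p i z') ≤ dist z z' := by
    intro i hi z z'
    have h1 : p i z - p i z' = ((i:ℝ)/n) • (z - z') := by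
      simp only [p]
      rw [add_sub_add_left_eq_sub, ← smul_sub]
      congr 1
      abel
    rw [dist_eq_norm, h1, norm_smul, ← dist_eq_norm]
    have h2 : ‖((i:ℝ)/n)‖ = i/n := by
      rw [Real.norm_of_nonneg (by positivity)]
    rw [h2]
    have h3 : (i:ℝ)/n ≤ 1 := by
      rw [div_le_one hn0]; exact_mod_cast hi
    calc (i:ℝ)/n * dist z z' ≤ 1 * dist z z' :=
          mul_le_mul_of_nonneg_right h3 dist_nonneg
      _ = dist z z' := one_mul _
  have hc0 : ∀ x ∈ D.X, D.c x x = 0 := by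
    intro x hx
    have := D.add x hx x hx x hx (by simpa using D.δpos) (by simpa using D.δpos)
      (by simpa using D.δpos)
    simpa using this
  refine ⟨η1/2, by positivity, fun z => ∑ i ∈ Finset.range n, D.c (H (p i z)) (H (p (i+1) z)), ?_⟩
  intro z hz z' hz' hzz
  have key : ∀ i ∈ Finset.range n, D.c (H (p i z')) (H (p (i+1) z')) - D.c (H (p i z)) (H (p (i+1) z))
      = D.c (H (p (i+1) z)) (H (p (i+1) z')) - D.c (H (p i z)) (H (p i z')) := by
    intro i hi
    have hi1 : i + 1 ≤ n := Finset.mem_range.1 hi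
    have hi0 : i ≤ n := by omega
    have m1 := hpK i hi0 z hz
    have m2 := hpK (i+1) hi1 z hz
    have m3 := hpK i hi0 z' hz'
    have m4 := hpK (i+1) hi1 z' hz'
    have d1 : dist (p i z) (p (i+1) z) < η1 := by linarith [hdist1 i z hz]
    have d2 : dist (p i z') (p (i+1) z') < η1 := by linarith [hdist1 i z' hz']
    have d3 : dist (p i z) (p i z') < η1 := by linarith [hdist2 i hi0 z z']
    have d4 : dist (p (i+1) z) (p (i+1) z') < η1 := by linarith [hdist2 (i+1) hi1 z z']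
    have d5 : dist (p i z) (p (i+1) z') < η1 := by
      linarith [dist_triangle (p i z) (p (i+1) z) (p (i+1) z'), hdist1 i z hz,
        hdist2 (i+1) hi1 z z']
    have e1 := D.add _ (hX _ m1) _ (hX _ m2) _ (hX _ m4) (hu _ m1 _ m2 d1) (hu _ m2 _ m4 d4)
      (hu _ m1 _ m4 d5)
    have e2 := D.add _ (hX _ m1) _ (hX _ m3) _ (hX _ m4) (hu _ m1 _ m3 d3) (hu _ m3 _ m4 d2)
      (hu _ m1 _ m4 d5)
    have e3 := e1.trans e2.symm
    rw [sub_eq_sub_iff_add_eq_add]
    rw [add_comm (D.c (H (p i z')) (H (p (i+1) z'))), ← e3, add_comm]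
  have hsum : (∑ i ∈ Finset.range n, D.c (H (p i z')) (H (p (i+1) z')))
      - (∑ i ∈ Finset.range n, D.c (H (p i z)) (H (p (i+1) z)))
      = D.c (H (p n z)) (H (p n z')) - D.c (H (p 0 z)) (H (p 0 z')) := by
    rw [← Finset.sum_sub_distrib, Finset.sum_congr rfl key]
    exact Finset.sum_range_sub (fun i => D.c (H (p i z)) (H (p i z'))) n
  have hp0 : ∀ z, p 0 z = z0 := by intro z; simp [p]
  have hpn : ∀ z, p n z = z := by
    intro z
    simp only [p]
    rw [div_self hn0.ne', one_smul]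
    abel
  rw [hp0, hp0, hpn, hpn, hc0 _ (hX _ hz0), sub_zero] at hsum
  exact hsum.symm

end Pool.Agent.H87.GR.PRIM
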