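import Pool.Agent.H87.GR.Stm

/-!
Project GR, part RECT: if all indeterminacy points inside a rectangle are good, its boundary
value is zero.
-/

set_option autoImplicit false

namespace Pool.Agent.H87.GR.RECT

open Pool.Agent.H87.GR Set

universe u

lemma exists_lower {S : Set ℝ} (hS : S.Finite) (h : ∀ s ∈ S, 0 < s) :
    ∃ ε : ℝ, 0 < ε ∧ ∀ s ∈ S, ε ≤ s := by
  induction S, hS using Set.Finite.induction_on with
  | empty => exact ⟨1, one_pos, by simp⟩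
  | @insert a T ha hT ih =>
    obtain ⟨ε, h1, h2⟩ := ih fun s hs => h s (mem_insert_of_mem _ hs)
    have h3 := h a (mem_insert _ _)
    refine ⟨min ε a, lt_min h1 h3, fun s hs => ?_⟩
    rcases hs with rfl | hs
    · exact min_le_right _ _
    · exact (min_le_left _ _).trans (h2 s hs)

variable {M : Type} {B : Type u} [MetricSpace M] [AddCommGroup B] {D : Coc M B}
  {Ψ : ℝ × ℝ → M} {Z : Set (ℝ × ℝ)}

lemma segment_snd {x1 x2 y : ℝ} {z : ℝ × ℝ} (h : z ∈ segment ℝ (x1, y) (x2, y)) : z.2 = y := by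
  obtain ⟨a, b, ha, hb, hab, rfl⟩ := h
  simp only [Prod.smul_mk, Prod.mk_add_mk, smul_eq_mul]
  rw [← add_mul, hab, one_mul]

lemma segment_fst {x y1 y2 : ℝ} {z : ℝ × ℝ} (h : z ∈ segment ℝ (x, y1) (x, y2)) : z.1 = x := by
  obtain ⟨a, b, ha, hb, hab, rfl⟩ := h
  simp only [Prod.smul_mk, Prod.mk_add_mk, smul_eq_mul]
  rw [← add_mul, hab, one_mul]

lemma mem_segH {x1 x2 x3 y : ℝ} (h1 : x1 ≤ x2) (h2 : x2 ≤ x3) :
    ((x2, y) : ℝ × ℝ) ∈ segment ℝ ((x1, y) : ℝ × ℝ) (x3, y) := by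
  have : x2 ∈ segment ℝ x1 x3 := by
    rw [segment_eq_Icc (h1.trans h2)]; exact ⟨h1, h2⟩
  obtain ⟨a, b, ha, hb, hab, h⟩ := this
  refine ⟨a, b, ha, hb, hab, ?_⟩
  simp only [Prod.smul_mk, Prod.mk_add_mk, smul_eq_mul] at h ⊢
  rw [h, ← add_mul, hab, one_mul]

lemma mem_segV {x y1 y2 y3 : ℝ} (h1 : y1 ≤ y2) (h2 : y2 ≤ y3) :
    ((x, y2) : ℝ × ℝ) ∈ segment ℝ ((x, y1) : ℝ × ℝ) (x, y3) := by
  have : y2 ∈ segment ℝ y1 y3 := by
    rw [segment_eq_Icc (h1.trans h2)]; exact ⟨h1, h2⟩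
  obtain ⟨a, b, ha, hb, hab, h⟩ := this
  refine ⟨a, b, ha, hb, hab, ?_⟩
  simp only [Prod.smul_mk, Prod.mk_add_mk, smul_eq_mul] at h ⊢
  rw [h, ← add_mul, hab, one_mul]

lemma segH (hA : StmSEGA.{u}) (hΨ : Adm D Ψ Z) {x1 x2 x3 y : ℝ} (h1 : x1 ≤ x2) (h2 : x2 ≤ x3)
    (hy : ∀ z ∈ Z, z.2 ≠ y) :
    seg D Ψ (x1, y) (x3, y) = seg D Ψ (x1, y) (x2, y) + seg D Ψ (x2, y) (x3, y) :=
  hA M B D Ψ _ _ _ (mem_segH h1 h2)
    (hΨ.cont.mono fun _ hz hz' => hy _ hz' (segment_snd hz))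
    fun z hz => hΨ.mem z fun hz' => hy _ hz' (segment_snd hz)

lemma segV (hA : StmSEGA.{u}) (hΨ : Adm D Ψ Z) {x y1 y2 y3 : ℝ} (h1 : y1 ≤ y2) (h2 : y2 ≤ y3)
    (hx : ∀ z ∈ Z, z.1 ≠ x) :
    seg D Ψ (x, y1) (x, y3) = seg D Ψ (x, y1) (x, y2) + seg D Ψ (x, y2) (x, y3) :=
  hA M B D Ψ _ _ _ (mem_segV h1 h2)
    (hΨ.cont.mono fun _ hz hz' => hx _ hz' (segment_fst hz))
    fun z hz => hΨ.mem z fun hz' => hx _ hz' (segment_fst hz)

lemma canc (h2B : ∀ b : B, b + b = 0) (p q r s t a b : B) :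
    (p + q) + r + (s + t) + b = (p + a + s + b) + (q + r + t + a) := by
  have h := h2B a
  calc (p + q) + r + (s + t) + b = (p + q) + r + (s + t) + b + (a + a) := by rw [h, add_zero]
    _ = _ := by abel

lemma canc' (h2B : ∀ b : B, b + b = 0) (p q r s t a b : B) :
    p + (q + r) + b + (s + t) = (p + q + a + s) + (a + r + b + t) := by
  have h := h2B a
  calc p + (q + r) + b + (s + t) = p + (q + r) + b + (s + t) + (a + a) := by rw [h, add_zero]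
    _ = _ := by abel

lemma bdH (hA : StmSEGA.{u}) (h2B : ∀ b : B, b + b = 0) (hΨ : Adm D Ψ Z) {x1 x2 x3 y1 y2 : ℝ}
    (h1 : x1 ≤ x2) (h2 : x2 ≤ x3) (hy1 : ∀ z ∈ Z, z.2 ≠ y1) (hy2 : ∀ z ∈ Z, z.2 ≠ y2) :
    bd D Ψ x1 x3 y1 y2 = bd D Ψ x1 x2 y1 y2 + bd D Ψ x2 x3 y1 y2 := by
  unfold bd
  rw [segH hA hΨ h1 h2 hy1, segH hA hΨ h1 h2 hy2]
  exact canc h2B _ _ _ _ _ _ _

lemma bdV (hA : StmSEGA.{u}) (h2B : ∀ b : B, b + b = 0) (hΨ : Adm D Ψ Z) {x1 x2 y1 y2 y3 : ℝ}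
    (h1 : y1 ≤ y2) (h2 : y2 ≤ y3) (hx1 : ∀ z ∈ Z, z.1 ≠ x1) (hx2 : ∀ z ∈ Z, z.1 ≠ x2) :
    bd D Ψ x1 x2 y1 y3 = bd D Ψ x1 x2 y1 y2 + bd D Ψ x1 x2 y2 y3 := by
  unfold bd
  rw [segV hA hΨ h1 h2 hx1, segV hA hΨ h1 h2 hx2]
  exact canc' h2B _ _ _ _ _ _ _

/-- the points of `Z` in the open rectangle -/
def ins (Z : Set (ℝ × ℝ)) (a1 a2 b1 b2 : ℝ) : Set (ℝ × ℝ) :=
  {z | z ∈ Z ∧ a1 < z.1 ∧ z.1 < a2 ∧ b1 < z.2 ∧ z.2 < b2}

theorem part : StmRECT.{u} := by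
  intro _ hA h0 M B _ _ D Ψ Z a1 a2 b1 b2 h2B hΨ
  have hfin : ∀ a1 a2 b1 b2, (ins Z a1 a2 b1 b2).Finite := fun _ _ _ _ =>
    hΨ.fin.subset fun _ h => h.1
  suffices H : ∀ n : ℕ, ∀ a1 a2 b1 b2 : ℝ, (ins Z a1 a2 b1 b2).ncard = n → a1 < a2 → b1 < b2 →
      (∀ z ∈ Z, z.1 ≠ a1 ∧ z.1 ≠ a2 ∧ z.2 ≠ b1 ∧ z.2 ≠ b2) →
      (∀ w ∈ Z, a1 < w.1 → w.1 < a2 → b1 < w.2 → w.2 < b2 → Good D Ψ w) →
      bd D Ψ a1 a2 b1 b2 = 0 from H _ a1 a2 b1 b2 rfl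
  intro n
  induction n using Nat.strong_induction_on with
  | _ n ih =>
  intro a1 a2 b1 b2 hn ha hb hZ hG
  rcases (ins Z a1 a2 b1 b2).eq_empty_or_nonempty with he | ⟨w, hw, hw1, hw2, hw3, hw4⟩
  · have hno : ∀ z ∈ Set.Icc a1 a2 ×ˢ Set.Icc b1 b2, z ∉ Z := by
      rintro z ⟨⟨h1, h2⟩, h3, h4⟩ hz
      obtain ⟨e1, e2, e3, e4⟩ := hZ z hz
      have : z ∈ ins Z a1 a2 b1 b2 := ⟨hz, lt_of_le_of_ne h1 e1.symm, lt_of_le_of_ne h2 e2,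
        lt_of_le_of_ne h3 e3.symm, lt_of_le_of_ne h4 e4⟩
      rw [he] at this
      exact this
    exact h0 M B D Ψ a1 a2 b1 b2 h2B ha.le hb.le (hΨ.cont.mono fun z hz => hno z hz)
      fun z hz => hΨ.mem z (hno z hz)
  · -- the small box
    obtain ⟨ε, hε, hlow⟩ := exists_lower
      (S := ((fun z : ℝ × ℝ => |z.1 - w.1|) '' {z | z ∈ Z ∧ z.1 ≠ w.1} ∪
        (fun z : ℝ × ℝ => |z.2 - w.2|) '' {z | z ∈ Z ∧ z.2 ≠ w.2}) ∪
        {w.1 - a1, a2 - w.1, w.2 - b1, b2 - w.2})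
      (((hΨ.fin.subset fun z hz => hz.1).image _ |>.union
        ((hΨ.fin.subset fun z hz => hz.1).image _)).union (Set.toFinite _)) (by
        rintro s ((⟨z, ⟨-, hz⟩, rfl⟩ | ⟨z, ⟨-, hz⟩, rfl⟩) | (rfl | rfl | rfl | rfl))
        · exact abs_pos.2 (sub_ne_zero.2 hz)
        · exact abs_pos.2 (sub_ne_zero.2 hz)
        all_goals linarith)
    have l1 : ∀ z ∈ Z, z.1 ≠ w.1 → ε ≤ |z.1 - w.1| := fun z hz hne =>
      hlow _ (Or.inl (Or.inl ⟨z, ⟨hz, hne⟩, rfl⟩))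
    have l2 : ∀ z ∈ Z, z.2 ≠ w.2 → ε ≤ |z.2 - w.2| := fun z hz hne =>
      hlow _ (Or.inl (Or.inr ⟨z, ⟨hz, hne⟩, rfl⟩))
    have l3 : ε ≤ w.1 - a1 := hlow _ (Or.inr (by simp))
    have l4 : ε ≤ a2 - w.1 := hlow _ (Or.inr (by simp))
    have l5 : ε ≤ w.2 - b1 := hlow _ (Or.inr (by simp))
    have l6 : ε ≤ b2 - w.2 := hlow _ (Or.inr (by simp))
    obtain ⟨r1, r2, hr1, hr1', hr2, hr2', hbd⟩ := hG w hw hw1 hw2 hw3 hw4 ε hε
    have aH : ∀ z ∈ Z, z.1 ≠ w.1 - r1 ∧ z.1 ≠ w.1 + r1 := by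
      intro z hz
      by_cases h : z.1 = w.1
      · rw [h]; constructor <;> intro h' <;> linarith
      · have := l1 z hz h
        constructor <;> intro h' <;> rw [h'] at this
        · rw [show w.1 - r1 - w.1 = -r1 by ring, abs_neg, abs_of_pos hr1] at this
          linarith
        · rw [show w.1 + r1 - w.1 = r1 by ring, abs_of_pos hr1] at this
          linarith
    have aV : ∀ z ∈ Z, z.2 ≠ w.2 - r2 ∧ z.2 ≠ w.2 + r2 := by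
      intro z hz
      by_cases h : z.2 = w.2
      · rw [h]; constructor <;> intro h' <;> linarith
      · have := l2 z hz h
        constructor <;> intro h' <;> rw [h'] at this
        · rw [show w.2 - r2 - w.2 = -r2 by ring, abs_neg, abs_of_pos hr2] at this
          linarith
        · rw [show w.2 + r2 - w.2 = r2 by ring, abs_of_pos hr2] at this
          linarith
    -- the smaller pieces
    have key : ∀ c1 c2 d1 d2 : ℝ, a1 ≤ c1 → c2 ≤ a2 → b1 ≤ d1 → d2 ≤ b2 → c1 < c2 → d1 < d2 →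
        (∀ z ∈ Z, z.1 ≠ c1 ∧ z.1 ≠ c2 ∧ z.2 ≠ d1 ∧ z.2 ≠ d2) → w ∉ ins Z c1 c2 d1 d2 →
        bd D Ψ c1 c2 d1 d2 = 0 := by
      intro c1 c2 d1 d2 e1 e2 e3 e4 e5 e6 e7 e8
      have hss : ins Z c1 c2 d1 d2 ⊂ ins Z a1 a2 b1 b2 := by
        refine ⟨fun z hz => ⟨hz.1, e1.trans_lt hz.2.1, hz.2.2.1.trans_le e2,
          e3.trans_lt hz.2.2.2.1, hz.2.2.2.2.trans_le e4⟩, fun h => ?_⟩
        exact e8 (h ⟨hw, hw1, hw2, hw3, hw4⟩)
      have hlt := Set.ncard_lt_ncard hss (hfin _ _ _ _)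
      rw [hn] at hlt
      exact ih _ hlt c1 c2 d1 d2 rfl e5 e6 e7 fun z hz f1 f2 f3 f4 =>
        hG z hz (e1.trans_lt f1) (f2.trans_le e2) (e3.trans_lt f3) (f4.trans_le e4)
    have p1 : bd D Ψ a1 (w.1 - r1) b1 b2 = 0 :=
      key _ _ _ _ le_rfl (by linarith) le_rfl le_rfl (by linarith) hb
        (fun z hz => ⟨(hZ z hz).1, (aH z hz).1, (hZ z hz).2.2⟩) fun h => by
          have := h.2.2.1; linarith
    have p2 : bd D Ψ (w.1 + r1) a2 b1 b2 = 0 :=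
      key _ _ _ _ (by linarith) le_rfl le_rfl le_rfl (by linarith) hb
        (fun z hz => ⟨(aH z hz).2, (hZ z hz).2.1, (hZ z hz).2.2⟩) fun h => by
          have := h.2.1; linarith
    have p3 : bd D Ψ (w.1 - r1) (w.1 + r1) b1 (w.2 - r2) = 0 :=
      key _ _ _ _ (by linarith) (by linarith) le_rfl (by linarith) (by linarith) (by linarith)
        (fun z hz => ⟨(aH z hz).1, (aH z hz).2, (hZ z hz).2.2.1, (aV z hz).1⟩) fun h => by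
          have := h.2.2.2.2; linarith
    have p4 : bd D Ψ (w.1 - r1) (w.1 + r1) (w.2 + r2) b2 = 0 :=
      key _ _ _ _ (by linarith) (by linarith) (by linarith) le_rfl (by linarith) (by linarith)
        (fun z hz => ⟨(aH z hz).1, (aH z hz).2, (aV z hz).2, (hZ z hz).2.2.2⟩) fun h => by
          have := h.2.2.2.1; linarith
    rw [bdH hA h2B hΨ (x2 := w.1 - r1) (by linarith) (by linarith)
        (fun z hz => (hZ z hz).2.2.1) (fun z hz => (hZ z hz).2.2.2),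
      bdH hA h2B hΨ (x1 := w.1 - r1) (x2 := w.1 + r1) (x3 := a2) (by linarith) (by linarith)
        (fun z hz => (hZ z hz).2.2.1) (fun z hz => (hZ z hz).2.2.2),
      bdV hA h2B hΨ (y1 := b1) (y2 := w.2 - r2) (y3 := b2) (by linarith) (by linarith)
        (fun z hz => (aH z hz).1) (fun z hz => (aH z hz).2),
      bdV hA h2B hΨ (y1 := w.2 - r2) (y2 := w.2 + r2) (y3 := b2) (by linarith) (by linarith)
        (fun z hz => (aH z hz).1) (fun z hz => (aH z hz).2),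
      p1, p2, p3, p4, hbd]
    simp

end Pool.Agent.H87.GR.RECT
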