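import Pool.Agent.H87.GR.Stm

/-!
Project GR, part RES: termination of the resolution of indeterminacy points.
-/

namespace Pool.Agent.H87.GR.RES

open Polynomial Topology

/-- coefficient of `y^n x^k` -/
noncomputable def cf (p : P2) (n k : ℕ) : ℝ := (p.coeff n).coeff k

lemma bl_eq {p q : P2} {m : ℕ} (h : bl p = (C X : P2) ^ m * q) (n : ℕ) :
    p.coeff n * X ^ n = X ^ m * q.coeff n := by
  have h1 : (bl p).coeff n = ((C X : P2) ^ m * q).coeff n := by rw [h]
  rwa [bl_coeff, ← C_pow, coeff_C_mul] at h1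

lemma cf_low {p q : P2} {m : ℕ} (h : bl p = (C X : P2) ^ m * q) (n k : ℕ) (hk : n + k < m) :
    cf p n k = 0 := by
  have h1 := congrArg (fun P : ℝ[X] => P.coeff (n + k)) (bl_eq h n)
  simp only [coeff_mul_X_pow', coeff_X_pow_mul'] at h1
  rw [if_pos (by omega), if_neg (by omega)] at h1
  rw [show n + k - n = k by omega] at h1
  exact h1

lemma cf_bl {p q : P2} {m : ℕ} (h : bl p = (C X : P2) ^ m * q) (n k : ℕ) :
    cf q n k = if n ≤ m + k then cf p n (m + k - n) else 0 := by
  have h1 := congrArg (fun P : ℝ[X] => P.coeff (m + k)) (bl_eq h n)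
  simp only [coeff_mul_X_pow', coeff_X_pow_mul'] at h1
  rw [if_pos (by omega : m ≤ m + k), show m + k - m = k by omega] at h1
  exact h1.symm

/-- the polynomial in `y` obtained for `x = 0` -/
noncomputable def e0 (p : P2) : ℝ[X] := p.map (constantCoeff (R := ℝ))

lemma e0_coeff (p : P2) (n : ℕ) : (e0 p).coeff n = cf p n 0 := by
  simp [e0, cf, constantCoeff_apply]

lemma e0_sh (v : ℝ) (p : P2) : e0 (sh (0, v) p) = (e0 p).comp (X + C v) := by
  induction p using Polynomial.induction_on' with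
  | add p q hp hq =>
    rw [map_add]
    unfold e0 at *
    rw [Polynomial.map_add, hp, hq, Polynomial.map_add, add_comp]
  | monomial n a =>
    rw [← C_mul_X_pow_eq_monomial, map_mul, map_pow]
    have h1 : sh (0, v) (X : P2) = X + C (C v) := by
      simp [sh]
    have h2 : sh (0, v) (C a : P2) = C a := by
      simp [sh]
    rw [h1, h2]
    unfold e0
    simp

lemma sh_C (v : ℝ) (a : ℝ[X]) : sh (0, v) (C a : P2) = C a := by
  simp [sh]

lemma dvd_of_e0 {p : P2} (h : e0 p = 0) : (C X : P2) ∣ p := by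
  rw [C_dvd_iff_dvd_coeff]
  intro n
  rw [X_dvd_iff]
  have := e0_coeff p n
  rw [h, coeff_zero] at this
  exact this.symm

lemma cf_add (p q : P2) (n k : ℕ) : cf (p + q) n k = cf p n k + cf q n k := by
  simp [cf]

lemma cf_sw (p : P2) (n k : ℕ) : cf (sw p) n k = cf p k n := by
  induction p using Polynomial.induction_on' with
  | add p q hp hq => rw [map_add, cf_add, cf_add, hp, hq]
  | monomial i a =>
    induction a using Polynomial.induction_on' with
    | add p q hp hq => rw [map_add, map_add, cf_add, cf_add, hp, hq]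
    | monomial j r =>
      have h : sw (monomial i (monomial j r) : P2) = monomial j (monomial i r) :=
        Polynomial.Bivariate.swap_monomial_monomial i j r
      rw [h]
      simp only [cf, coeff_monomial]
      by_cases h1 : j = n <;> by_cases h2 : i = k <;> simp [h1, h2, coeff_monomial]

/-- blow-up with exponent `m` -/
def Bl (a a1 : Pr) (m : ℕ) : Prop :=
  bl a.1 = (C X) ^ m * a1.1 ∧ bl a.2 = (C X) ^ m * a1.2 ∧
    ¬ ((C X : P2) ∣ a1.1 ∧ (C X : P2) ∣ a1.2)

lemma Bl.isBl {a a1 : Pr} {m : ℕ} (h : Bl a a1 m) : IsBl a a1 := ⟨m, h⟩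

/-- a coefficient `y^n` at `x = 0` is nonzero -/
def G (b : Pr) (n : ℕ) : Prop := cf b.1 n 0 ≠ 0 ∨ cf b.2 n 0 ≠ 0

lemma Bl.low {a a1 : Pr} {m : ℕ} (h : Bl a a1 m) {n k : ℕ} (hk : n + k < m) :
    cf a.1 n k = 0 ∧ cf a.2 n k = 0 :=
  ⟨cf_low h.1 n k hk, cf_low h.2.1 n k hk⟩

lemma Bl.exG {a a1 : Pr} {m : ℕ} (h : Bl a a1 m) (v : ℝ) :
    ∃ n ≤ m, G (shp (0, v) a1) n := by
  have hd : ∀ p q : P2, bl p = (C X : P2) ^ m * q → (e0 q).natDegree ≤ m := by
    intro p q hpq
    rw [natDegree_le_iff_coeff_eq_zero]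
    intro N hN
    rw [e0_coeff, cf_bl hpq, if_neg (by omega)]
  have hn : ∀ p q : P2, bl p = (C X : P2) ^ m * q → e0 q ≠ 0 →
      ∃ n ≤ m, cf (sh (0, v) q) n 0 ≠ 0 := by
    intro p q hpq hq
    have hc : (e0 q).comp (X + C v) ≠ 0 := by
      intro h0
      rw [comp_eq_zero_iff] at h0
      rcases h0 with h0 | ⟨_, h0⟩
      · exact hq h0
      · have := congrArg natDegree h0
        rw [natDegree_X_add_C, natDegree_C] at this
        omega
    refine ⟨((e0 q).comp (X + C v)).natDegree, ?_, ?_⟩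
    · rw [natDegree_comp, natDegree_X_add_C, mul_one]
      exact hd p q hpq
    · rw [← e0_coeff, e0_sh]
      exact leadingCoeff_ne_zero.mpr hc
  by_cases h1 : e0 a1.1 = 0
  · have h2 : e0 a1.2 ≠ 0 := fun h2 => h.2.2 ⟨dvd_of_e0 h1, dvd_of_e0 h2⟩
    obtain ⟨n, hn1, hn2⟩ := hn _ _ h.2.1 h2
    exact ⟨n, hn1, Or.inr hn2⟩
  · obtain ⟨n, hn1, hn2⟩ := hn _ _ h.1 h1
    exact ⟨n, hn1, Or.inl hn2⟩

lemma sh_zero (p : P2) : sh (0, 0) p = p := by
  induction p using Polynomial.induction_on' with
  | add p q hp hq => rw [map_add, hp, hq]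
  | monomial n a =>
    have h1 : sh (0, 0) (X : P2) = X := by
      simp [sh]
    rw [← C_mul_X_pow_eq_monomial, map_mul, map_pow, h1, sh_C]

lemma shp_zero (a : Pr) : shp (0, 0) a = a := by
  simp only [shp, sh_zero]

lemma Bl.le_of_G {b b1 : Pr} {m' n : ℕ} (h : Bl b b1 m') (hG : G b n) : m' ≤ n := by
  by_contra hlt
  push Not at hlt
  have := h.low (n := n) (k := 0) (by omega)
  rcases hG with hG | hG
  · exact hG this.1
  · exact hG this.2

lemma notInd_of_G {b : Pr} (hG : G b 0) : (0 : ℝ × ℝ) ∉ Ind b := by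
  have hev : ∀ p : P2, ev p 0 = cf p 0 0 := by
    intro p
    simp [ev, evalEval, cf, ← coeff_zero_eq_eval_zero]
  rintro ⟨h1, h2⟩
  rw [hev] at h1 h2
  rcases hG with hG | hG
  · exact hG h1
  · exact hG h2

lemma Bl.swap {a a1 a2 : Pr} {m m2 : ℕ} (h : Bl a a1 m) (h2 : Bl (swp a) a2 m2) : m2 = m := by
  have key : ∀ (b b1 : Pr) (k : ℕ), Bl b b1 k →
      ∃ n ≤ k, cf b.1 n (k - n) ≠ 0 ∨ cf b.2 n (k - n) ≠ 0 := by
    intro b b1 k hb
    obtain ⟨n, hn, hG⟩ := hb.exG 0
    rw [shp_zero] at hG
    refine ⟨n, hn, ?_⟩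
    rcases hG with hG | hG
    · rw [cf_bl hb.1, if_pos (by omega)] at hG
      exact Or.inl hG
    · rw [cf_bl hb.2.1, if_pos (by omega)] at hG
      exact Or.inr hG
  obtain ⟨n, hn, hc⟩ := key _ _ _ h
  obtain ⟨n', hn', hc'⟩ := key _ _ _ h2
  have e1 : m2 ≤ m := by
    by_contra hlt
    push Not at hlt
    have := h2.low (n := m - n) (k := n) (by omega)
    simp only [swp, cf_sw] at this
    rcases hc with hc | hc
    · exact hc this.1
    · exact hc this.2
  have e2 : m ≤ m2 := by
    by_contra hlt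
    push Not at hlt
    have := h.low (n := m2 - n') (k := n') (by omega)
    simp only [swp, cf_sw] at hc'
    rcases hc' with hc | hc
    · exact hc this.1
    · exact hc this.2
  omega

theorem claimA (hE : StmBLE) (hR : StmBLR) (m : ℕ) (hm : m ≠ 0)
    (ih : ∀ m' < m, ∀ b b1 : Pr, RP b → Bl b b1 m' → Res0 b) :
    ∀ (N : ℕ) (a a1 : Pr), RP a → Bl a a1 m → G a m →
      (∃ r : ℝ[X], r ≠ 0 ∧ r.natDegree < N ∧ ∃ A B : P2, A * a.1 + B * a.2 = C r) → Res0 a := by
  intro N
  induction N with
  | zero =>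
    rintro a a1 - - - ⟨r, -, h, -⟩
    omega
  | succ N ihN =>
    rintro a a1 ha h1 hG ⟨r, hr0, hrN, A, B, hAB⟩
    obtain ⟨a2, m2, h2⟩ := hE (swp a) ha.swp
    have h2 : Bl (swp a) a2 m2 := h2
    have hm2 := h1.swap h2
    subst hm2
    refine Res0.step a a1 a2 h1.isBl h2.isBl ?_ ?_
    · intro v
      have hRP : RP (shp (0, v) a1) := (hR a a1 ha h1.isBl).shp _
      obtain ⟨b1, m', h3⟩ := hE _ hRP
      have h3 : Bl (shp (0, v) a1) b1 m' := h3
      obtain ⟨n, hn, hGn⟩ := h1.exG v
      have hle := h3.le_of_G hGn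
      rcases lt_or_ge m' m2 with hlt | hge
      · exact ih m' hlt _ _ hRP h3
      · have hnm : n = m2 := by omega
        have hm' : m' = m2 := by omega
        subst hnm
        subst hm'
        refine ihN _ _ hRP h3 hGn ?_
        -- the new Bezout relation
        have e1 : (C X : P2) ^ m' * (bl A * a1.1 + bl B * a1.2) = C r := by
          have : bl (A * a.1 + B * a.2) = bl (C r) := by rw [hAB]
          rw [bl_add, bl_mul, bl_mul, h1.1, h1.2.1] at this
          have hC : bl (C r) = C r := by simp [bl]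
          rw [hC] at this
          rw [← this]
          ring
        have e2 : X ^ m' ∣ r := by
          refine ⟨(bl A * a1.1 + bl B * a1.2).coeff 0, ?_⟩
          have := congrArg (fun P : P2 => P.coeff 0) e1
          simp only [← C_pow, coeff_C_mul, coeff_C_zero] at this
          exact this.symm
        obtain ⟨s, hs⟩ := e2
        have hs0 : s ≠ 0 := by
          rintro rfl
          exact hr0 (by rw [hs, mul_zero])
        have e3 : bl A * a1.1 + bl B * a1.2 = C s := by
          have : (C X : P2) ^ m' * (bl A * a1.1 + bl B * a1.2) = (C X : P2) ^ m' * C s := by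
            rw [e1, hs, C_mul, C_pow]
          exact mul_left_cancel₀ (pow_ne_zero _ (by simp)) this
        refine ⟨s, hs0, ?_, sh (0, v) (bl A), sh (0, v) (bl B), ?_⟩
        · have : r.natDegree = m' + s.natDegree := by
            rw [hs, natDegree_mul (pow_ne_zero _ X_ne_zero) hs0, natDegree_X_pow]
          omega
        · show sh (0, v) (bl A) * sh (0, v) a1.1 + sh (0, v) (bl B) * sh (0, v) a1.2 = C s
          rw [← map_mul, ← map_mul, ← map_add, e3, sh_C]
    · apply Res0.base
      apply notInd_of_G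
      rcases hG with hG | hG
      · left
        rw [cf_bl h2.1, if_pos (by omega)]
        simp only [swp, cf_sw]
        simpa using hG
      · right
        rw [cf_bl h2.2.1, if_pos (by omega)]
        simp only [swp, cf_sw]
        simpa using hG

theorem claimB (hE : StmBLE) (hR : StmBLR) (hZ : StmBEZ) (m : ℕ) :
    ∀ a a1 : Pr, RP a → Bl a a1 m → Res0 a := by
  induction m using Nat.strong_induction_on with
  | _ m ih =>
    intro a a1 ha h1
    rcases Nat.eq_zero_or_pos m with rfl | hm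
    · apply Res0.base
      apply notInd_of_G
      obtain ⟨n, hn, hG⟩ := h1.exG 0
      rw [shp_zero] at hG
      have hn0 : n = 0 := by omega
      subst hn0
      rcases hG with hG | hG
      · left
        rw [cf_bl h1.1, if_pos (by omega)] at hG
        simpa using hG
      · right
        rw [cf_bl h1.2.1, if_pos (by omega)] at hG
        simpa using hG
    · have hA := claimA hE hR m (by omega) ih
      obtain ⟨a2, m2, h2⟩ := hE (swp a) ha.swp
      have h2 : Bl (swp a) a2 m2 := h2
      have hm2 := h1.swap h2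
      subst hm2
      have gen : ∀ b b1 : Pr, ∀ m' n : ℕ, RP b → Bl b b1 m' → n ≤ m2 → G b n → Res0 b := by
        intro b b1 m' n hb h3 hn hGn
        have hle := h3.le_of_G hGn
        rcases lt_or_ge m' m2 with hlt | hge
        · exact ih m' hlt _ _ hb h3
        · have hnm : n = m2 := by omega
          have hm' : m' = m2 := by omega
          subst hnm
          subst hm'
          obtain ⟨r, hr, A, B, hAB⟩ := hZ b hb
          exact hA (r.natDegree + 1) b b1 hb h3 hGn ⟨r, hr, by omega, A, B, hAB⟩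
      refine Res0.step a a1 a2 h1.isBl h2.isBl ?_ ?_
      · intro v
        have hRP : RP (shp (0, v) a1) := (hR a a1 ha h1.isBl).shp _
        obtain ⟨b1, m', h3⟩ := hE _ hRP
        obtain ⟨n, hn, hGn⟩ := h1.exG v
        exact gen _ _ _ _ hRP h3 hn hGn
      · have hRP : RP a2 := hR _ _ ha.swp h2.isBl
        obtain ⟨b1, m', h3⟩ := hE _ hRP
        obtain ⟨n, hn, hGn⟩ := h2.exG 0
        rw [shp_zero] at hGn
        exact gen _ _ _ _ hRP h3 hn hGn

theorem part : StmRES := by
  intro hE hR hZ a ha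
  obtain ⟨a1, m, h⟩ := hE a ha
  exact claimB hE hR hZ m a a1 ha h

end Pool.Agent.H87.GR.RES
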