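import Pool.Agent.H87.GR.Stm

/-! Project GR, parts SEGS, SEGA, BD0 (helper27), given PRIM and VB. -/

namespace Pool.Agent.H87.GR.SEG

open Topology Set

universe u

lemma segval (hV : StmVB.{u}) {M : Type} {B : Type u} [MetricSpace M] [AddCommGroup B]
    (D : Coc M B) (Ψ : ℝ × ℝ → M) (K : Set (ℝ × ℝ)) (hconv : Convex ℝ K)
    (hΨ : ContinuousOn Ψ K) (hX : ∀ z ∈ K, Ψ z ∈ D.X) (η : ℝ) (hη : 0 < η) (θ : ℝ × ℝ → B)
    (hθ : ∀ z ∈ K, ∀ z' ∈ K, dist z z' < η → D.c (Ψ z) (Ψ z') = θ z' - θ z)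
    (p q : ℝ × ℝ) (hp : p ∈ K) (hq : q ∈ K) : seg D Ψ p q = θ q - θ p := by
  have hmem : ∀ t ∈ Icc (0:ℝ) 1, p + t • (q - p) ∈ K := fun t ht =>
    hconv.add_smul_sub_mem hp hq ht
  have hcont : Continuous (fun t : ℝ => p + t • (q - p)) := by fun_prop
  have h := hV M B D (fun t => Ψ (p + t • (q - p))) (fun t => θ (p + t • (q - p)))
    (hΨ.comp hcont.continuousOn hmem) (fun t ht => hX _ (hmem t ht)) ?_
  · unfold seg
    rw [h]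
    simp
  · intro t ht
    have h1 : ∀ᶠ s in 𝓝 t, dist (p + s • (q - p)) (p + t • (q - p)) < η :=
      Metric.continuous_iff'.1 hcont t η hη
    filter_upwards [mem_nhdsWithin_of_mem_nhds h1, self_mem_nhdsWithin] with s hs hs'
    exact hθ _ (hmem t ht) _ (hmem s hs') (by rw [dist_comm]; exact hs)

lemma compSeg (p q : ℝ × ℝ) : IsCompact (segment ℝ p q) := by
  rw [segment_eq_image']
  exact isCompact_Icc.image (by fun_prop)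

theorem partS (hP : StmPRIM.{u}) (hV : StmVB.{u}) : StmSEGS.{u} := by
  intro M B _ _ D Ψ p q hΨ hX
  have hconv := convex_segment (𝕜 := ℝ) p q
  have hcomp : IsCompact (segment ℝ p q) := compSeg p q
  obtain ⟨η, hη, θ, hθ⟩ := hP M B D (segment ℝ p q) hconv hcomp Ψ hΨ hX
  rw [segval hV D Ψ _ hconv hΨ hX η hη θ hθ p q (left_mem_segment ℝ p q)
    (right_mem_segment ℝ p q), segval hV D Ψ _ hconv hΨ hX η hη θ hθ q p
    (right_mem_segment ℝ p q) (left_mem_segment ℝ p q), neg_sub]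

theorem partA (hP : StmPRIM.{u}) (hV : StmVB.{u}) : StmSEGA.{u} := by
  intro M B _ _ D Ψ p q r hq hΨ hX
  have hconv := convex_segment (𝕜 := ℝ) p r
  have hcomp : IsCompact (segment ℝ p r) := compSeg p r
  obtain ⟨η, hη, θ, hθ⟩ := hP M B D (segment ℝ p r) hconv hcomp Ψ hΨ hX
  rw [segval hV D Ψ _ hconv hΨ hX η hη θ hθ p r (left_mem_segment ℝ p r)
    (right_mem_segment ℝ p r), segval hV D Ψ _ hconv hΨ hX η hη θ hθ p q
    (left_mem_segment ℝ p r) hq, segval hV D Ψ _ hconv hΨ hX η hη θ hθ q r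
    hq (right_mem_segment ℝ p r)]
  abel

theorem partBD0 (hP : StmPRIM.{u}) (hV : StmVB.{u}) : StmBD0.{u} := by
  intro M B _ _ D Ψ a1 a2 b1 b2 h2 ha hb hΨ hX
  have hconv : Convex ℝ (Icc a1 a2 ×ˢ Icc b1 b2) := (convex_Icc a1 a2).prod (convex_Icc b1 b2)
  have hcomp : IsCompact (Icc a1 a2 ×ˢ Icc b1 b2) := isCompact_Icc.prod isCompact_Icc
  obtain ⟨η, hη, θ, hθ⟩ := hP M B D _ hconv hcomp Ψ hΨ hX
  have m11 : (a1, b1) ∈ Icc a1 a2 ×ˢ Icc b1 b2 := ⟨⟨le_refl _, ha⟩, ⟨le_refl _, hb⟩⟩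
  have m21 : (a2, b1) ∈ Icc a1 a2 ×ˢ Icc b1 b2 := ⟨⟨ha, le_refl _⟩, ⟨le_refl _, hb⟩⟩
  have m12 : (a1, b2) ∈ Icc a1 a2 ×ˢ Icc b1 b2 := ⟨⟨le_refl _, ha⟩, ⟨hb, le_refl _⟩⟩
  have m22 : (a2, b2) ∈ Icc a1 a2 ×ˢ Icc b1 b2 := ⟨⟨ha, le_refl _⟩, ⟨hb, le_refl _⟩⟩
  unfold bd
  rw [segval hV D Ψ _ hconv hΨ hX η hη θ hθ _ _ m11 m21,
    segval hV D Ψ _ hconv hΨ hX η hη θ hθ _ _ m21 m22,
    segval hV D Ψ _ hconv hΨ hX η hη θ hθ _ _ m12 m22,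
    segval hV D Ψ _ hconv hΨ hX η hη θ hθ _ _ m11 m12]
  calc θ (a2, b1) - θ (a1, b1) + (θ (a2, b2) - θ (a2, b1)) + (θ (a2, b2) - θ (a1, b2))
        + (θ (a1, b2) - θ (a1, b1))
      = (θ (a2, b2) + θ (a2, b2)) - (θ (a1, b1) + θ (a1, b1)) := by abel
    _ = 0 := by rw [h2, h2, sub_zero]

end Pool.Agent.H87.GR.SEG
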