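import Pool.Agent.H87.GR.Stm

/-! Project GR, parts VB and VC (helper27). -/

namespace Pool.Agent.H87.GR.VB

open Topology Set

universe u

theorem part : StmVB.{u} := by
  intro M B _ _ D γ θ hγ hX hθ
  have hex : ∃ θ, IsPrim D γ θ := ⟨θ, hθ⟩
  unfold V
  rw [dif_pos hex]
  have hθ' : IsPrim D γ hex.choose := hex.choose_spec
  generalize hex.choose = θ' at hθ'
  let _ : TopologicalSpace B := ⊥
  have _ : DiscreteTopology B := ⟨rfl⟩
  have hc : ContinuousOn (fun t => θ' t - θ t) (Icc (0:ℝ) 1) := by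
    intro t ht
    have h1 := hθ t ht
    have h2 := hθ' t ht
    have h3 : ∀ᶠ s in 𝓝[Icc (0:ℝ) 1] t, θ' s - θ s = θ' t - θ t := by
      filter_upwards [h1, h2] with s h1 h2
      have h4 : θ s - θ t = θ' s - θ' t := h1.symm.trans h2
      calc θ' s - θ s = (θ' s - θ' t) - (θ s - θ t) + (θ' t - θ t) := by abel
        _ = θ' t - θ t := by rw [h4]; abel
    exact tendsto_nhds_of_eventually_eq h3
  have hconn : IsPreconnected (Icc (0:ℝ) 1) := isPreconnected_Icc
  have h5 : θ' 0 - θ 0 = θ' 1 - θ 1 := hconn.constant hc (x := 0) (y := 1) (by simp) (by simp)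
  calc θ' 1 - θ' 0 = (θ' 1 - θ 1) - (θ' 0 - θ 0) + (θ 1 - θ 0) := by abel
    _ = θ 1 - θ 0 := by rw [h5]; abel

theorem partVC : StmVC.{u} := by
  intro M B _ _ D γ γ' h
  have key : IsPrim D γ = IsPrim D γ' := by
    funext θ
    apply propext
    constructor
    · intro hp t ht
      filter_upwards [hp t ht, self_mem_nhdsWithin] with s hs hs'
      rw [← h ht, ← h hs', hs]
    · intro hp t ht
      filter_upwards [hp t ht, self_mem_nhdsWithin] with s hs hs'
      rw [h ht, h hs', hs]
  classical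
  have hV : ∀ γ : ℝ → M, V D γ = (fun P : (ℝ → B) → Prop =>
      if h : ∃ θ, P θ then h.choose 1 - h.choose 0 else 0) (IsPrim D γ) := by
    intro γ
    unfold V
    congr
  rw [hV, hV, key]

end Pool.Agent.H87.GR.VB
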