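import Pool.Agent.H87.GR.Model
import Pool.Agent.H87.GR.BEZ
import Pool.Agent.H87.GR.BLE
import Pool.Agent.H87.GR.BLR
import Pool.Agent.H87.GR.BLOW
import Pool.Agent.H87.GR.COV
import Pool.Agent.H87.GR.EVL
import Pool.Agent.H87.GR.FAM
import Pool.Agent.H87.GR.FINI
import Pool.Agent.H87.GR.GRA
import Pool.Agent.H87.GR.PRIM
import Pool.Agent.H87.GR.RECT
import Pool.Agent.H87.GR.RES
import Pool.Agent.H87.GR.SEG
import Pool.Agent.H87.GR.VB

namespace Pool.Agent.H87.GR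

universe v w x

theorem coreThm : StmCORE.{v} :=
  CORE.part BLE.part BLR.part BEZ.part FINI.part RES.part FAM.part VB.partVC.{v}
    (SEG.partS PRIM.part.{v} VB.part.{v}) (SEG.partA PRIM.part.{v} VB.part.{v})
    (SEG.partBD0 PRIM.part.{v} VB.part.{v}) RECT.part.{v} BLOW.part.{v} EVL.part

theorem mainThm (F : Set RF) (G : Type v) [AddCommGroup G] (hG : ∃ g : G, ∀ h : G, h + h ≠ g)
    (K : Type x) [TopologicalSpace K] (hK : FIN.IsEM1.{v, w, x} G K) :
    ∃ A : Set (Graphoid F), IsClosed A ∧ ∃ f : C(A, K),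
      ¬ ∃ F' : C(Graphoid F, K), ∀ a : A, F' a = f a := by
  obtain ⟨h1, h2, h3, h4, h5, h6⟩ := GRA.part EVL.part FINI.part BEZ.part
  exact FIN.main (FINI.part BEZ.part) EVL.part coreThm COV.part.{v, w, x} VB.part.{v} h1 h2 h3 h4
    h5 h6 F G hG K hK

end Pool.Agent.H87.GR
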