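import Pool.Agent.H87.GR.FIN

/-!
Existence of a model of `K(G,1)` in the sense of `IsEM1`: functions `[0,1) → G` with the distance
`d(f,g) = volume {f ≠ g}` (Hartman–Mycielski construction), modulo translations by `G`.
-/

namespace Pool.Agent.H87.GR.Model

open MeasureTheory Topology Set

universe v

/-- functions on `[0,1)` with values in `G` -/
def HM (G : Type v) : Type v := Set.Ico (0:ℝ) 1 → G

variable {G : Type v} [AddCommGroup G]

/-- the set where two functions differ -/
def df (f g : HM G) : Set ℝ := {r | ∃ h : r ∈ Set.Ico (0:ℝ) 1, f ⟨r, h⟩ ≠ g ⟨r, h⟩}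

omit [AddCommGroup G] in
lemma df_fin (f g : HM G) : volume (df f g) ≠ ⊤ := by
  have h1 : df f g ⊆ Set.Ico (0:ℝ) 1 := fun r hr => hr.1
  have h2 : volume (Set.Ico (0:ℝ) 1) ≠ ⊤ := by simp
  exact ne_top_of_le_ne_top h2 (measure_mono h1)

noncomputable instance : PseudoMetricSpace (HM G) where
  dist f g := (volume (df f g)).toReal
  dist_self f := by
    have : df f f = ∅ := by
      ext r
      simp [df]
    rw [this]
    simp
  dist_comm f g := by
    have : df f g = df g f := by
      ext r
      simp only [df, ne_eq, Set.mem_ofPred_eq]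
      constructor
      · rintro ⟨h, h'⟩
        exact ⟨h, fun e => h' e.symm⟩
      · rintro ⟨h, h'⟩
        exact ⟨h, fun e => h' e.symm⟩
    rw [this]
  dist_triangle f g h := by
    have h1 : df f h ⊆ df f g ∪ df g h := by
      rintro r ⟨hr, hx⟩
      by_contra hc
      have h2 : f ⟨r, hr⟩ = g ⟨r, hr⟩ := by
        by_contra h3
        exact hc (Or.inl ⟨hr, h3⟩)
      have h3 : g ⟨r, hr⟩ = h ⟨r, hr⟩ := by
        by_contra h3
        exact hc (Or.inr ⟨hr, h3⟩)
      exact hx (h2.trans h3)
    rw [← ENNReal.toReal_add (df_fin _ _) (df_fin _ _)]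
    exact ENNReal.toReal_mono (ENNReal.add_ne_top.2 ⟨df_fin _ _, df_fin _ _⟩)
      ((measure_mono h1).trans (measure_union_le _ _))

lemma dist_def (f g : HM G) : dist f g = (volume (df f g)).toReal := rfl

lemma dist_le (f g : HM G) (A : Set ℝ) (r : ℝ) (hr : 0 ≤ r)
    (hA : volume A ≤ ENNReal.ofReal r) (h : df f g ⊆ A) : dist f g ≤ r := by
  rw [dist_def]
  exact ENNReal.toReal_le_of_le_ofReal hr ((measure_mono h).trans hA)

instance : AddAction G (HM G) where
  vadd g f := fun x => g + f x
  zero_vadd f := by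
    funext x
    exact zero_add _
  add_vadd g h f := by
    funext x
    exact add_assoc _ _ _

lemma vadd_app (g : G) (f : HM G) (x : Set.Ico (0:ℝ) 1) : (g +ᵥ f) x = g + f x := rfl

lemma dist_vadd (g : G) (f f' : HM G) : dist (g +ᵥ f) (g +ᵥ f') = dist f f' := by
  have : df (g +ᵥ f) (g +ᵥ f') = df f f' := by
    ext r
    simp only [df, vadd_app, ne_eq, add_right_inj]
  rw [dist_def, dist_def, this]

lemma dist_vadd_self (g : G) (hg : g ≠ 0) (f : HM G) : dist f (g +ᵥ f) = 1 := by
  have : df f (g +ᵥ f) = Set.Ico (0:ℝ) 1 := by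
    ext r
    constructor
    · exact fun h => h.1
    · intro h
      refine ⟨h, ?_⟩
      rw [vadd_app]
      intro h'
      exact hg (by simpa using h'.symm)
  rw [dist_def, this]
  simp

open Classical in
/-- the contraction -/
noncomputable def con (t : unitInterval) (f : HM G) : HM G := fun x => if (x : ℝ) < t then 0 else f x

lemma con_dist (s t : unitInterval) (f g : HM G) :
    dist (con s f) (con t g) ≤ |(s:ℝ) - t| + dist f g := by
  have h1 : dist (con s f) (con t f) ≤ |(s:ℝ) - t| := by
    refine dist_le _ _ (Set.Ico (min (s:ℝ) t) (max (s:ℝ) t)) _ (abs_nonneg _) ?_ ?_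
    · rw [Real.volume_Ico, max_sub_min_eq_abs']
    · rintro r ⟨hr, hx⟩
      simp only [con] at hx
      by_contra hc
      simp only [mem_Ico, min_le_iff, lt_max_iff, not_and_or, not_or, not_le, not_lt] at hc
      apply hx
      rcases hc with ⟨h3, h4⟩ | ⟨h3, h4⟩
      · rw [if_pos h3, if_pos h4]
      · rw [if_neg (not_lt.2 h3), if_neg (not_lt.2 h4)]
  have h2 : dist (con t f) (con t g) ≤ dist f g := by
    refine dist_le _ _ (df f g) _ dist_nonneg ?_ ?_
    · rw [dist_def, ENNReal.ofReal_toReal (df_fin _ _)]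
    · rintro r ⟨hr, hx⟩
      refine ⟨hr, ?_⟩
      intro hfg
      apply hx
      simp only [con, hfg]
  exact (dist_triangle _ (con t f) _).trans (add_le_add h1 h2)

instance : ContractibleSpace (HM G) := by
  rw [contractible_iff_id_nullhomotopic]
  refine ⟨(fun _ => 0 : HM G), ⟨⟨⟨fun p => con p.1 p.2, ?_⟩, ?_, ?_⟩⟩⟩
  · rw [Metric.continuous_iff]
    intro p ε hε
    refine ⟨ε / 2, by positivity, ?_⟩
    intro q hq
    have h1 := con_dist q.1 p.1 q.2 p.2
    rw [Prod.dist_eq, max_lt_iff] at hq
    have h2 : |(q.1 : ℝ) - p.1| < ε / 2 := hq.1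
    have h3 := hq.2
    linarith
  · intro f
    show con 0 f = f
    funext x
    simp only [con]
    rw [if_neg]
    exact not_lt.2 x.2.1
  · intro f
    show con 1 f = _
    funext x
    simp only [con]
    rw [if_pos]
    · rfl
    · exact x.2.2

theorem exists_model (G : Type v) [AddCommGroup G] :
    ∃ (K : Type v) (_ : TopologicalSpace K), FIN.IsEM1.{v, v, v} G K := by
  have hc : ∀ g : G, Continuous fun e : HM G => g +ᵥ e := by
    intro g
    refine (Isometry.of_dist_eq ?_).continuous
    intro a b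
    exact dist_vadd g a b
  have : ContinuousConstVAdd G (HM G) := ⟨hc⟩
  refine ⟨Quotient (AddAction.orbitRel G (HM G)), inferInstance, HM G, inferInstance, inferInstance,
    Quotient.mk _, inferInstance, ?_⟩
  refine ⟨hc, ⟨Quotient.mk_surjective, continuous_quot_mk, isOpenMap_quotient_mk'_add⟩, ?_, ?_⟩
  · intro e e'
    rw [Quotient.eq]
    constructor
    · intro h
      obtain ⟨g, hg⟩ := h
      refine ⟨-g, ?_⟩
      rw [← hg]
      simp
    · rintro ⟨g, rfl⟩
      refine ⟨-g, ?_⟩
      simp
  · intro e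
    refine ⟨Metric.ball e (1/2), Metric.isOpen_ball, Metric.mem_ball_self (by norm_num), ?_⟩
    intro g hg x hx hx'
    have h1 := dist_vadd_self g hg x
    have h2 : dist x (g +ᵥ x) < 1 / 2 + 1 / 2 := by
      refine lt_of_le_of_lt (dist_triangle _ e _) (add_lt_add hx ?_)
      rw [dist_comm]
      exact hx'
    linarith

end Pool.Agent.H87.GR.Model
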