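import Pool.Agent.H87.GR.Defs

/-!
Project GR (MP_294eca_gt): exact statements of the parts.
Each part is a file `Pool/Agent/H87/GR/<NAME>.lean` proving `theorem part : Stm<NAME>`
in the namespace `Pool.Agent.H87.GR.<NAME>`.
-/

namespace Pool.Agent.H87.GR

open Polynomial Topology

/-! ## Algebra -/

/-- BLE: the blow-up exists. -/
def StmBLE : Prop := ∀ a : Pr, RP a → ∃ a1, IsBl a a1

/-- BLR: the blow-up of a coprime pair is a coprime pair. -/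
def StmBLR : Prop := ∀ a a1 : Pr, RP a → IsBl a a1 → RP a1

/-- BEZ: the ideal of a coprime pair contains a nonzero polynomial in `x` alone. -/
def StmBEZ : Prop := ∀ a : Pr, RP a → ∃ r : ℝ[X], r ≠ 0 ∧ ∃ A B : P2, A * a.1 + B * a.2 = C r

/-- FINI: finitely many indeterminacy points. -/
def StmFINI : Prop := StmBEZ → ∀ a : Pr, RP a → (Ind a).Finite

/-- RES: the termination argument. -/
def StmRES : Prop := StmBLE → StmBLR → StmBEZ → ∀ a : Pr, RP a → Res0 a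

/-- FAM: the induction principle for finite families. -/
def StmFAM : Prop := StmBLE → StmBLR → (∀ a : Pr, RP a → Res0 a) →
  ∀ (ι : Type) [Finite ι] (G0 : (ι → Pr) → Prop),
    (∀ f : ι → Pr, (∀ i, RP (f i)) → (∀ i, (0 : ℝ × ℝ) ∉ Ind (f i)) → G0 f) →
    (∀ f f1 f2 : ι → Pr, (∀ i, RP (f i)) → (∀ i, RP (f1 i)) → (∀ i, RP (f2 i)) →
      (∀ i, IsBl (f i) (f1 i)) → (∀ i, IsBl (swp (f i)) (f2 i)) →
      (∀ v : ℝ, G0 (fun i => shp (0, v) (f1 i))) → G0 f2 → G0 f) →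
    ∀ f : ι → Pr, (∀ i, RP (f i)) → G0 f

/-! ## Paths and rectangles -/

universe u

/-- PRIM: a map of a compact convex set has a uniform primitive. -/
def StmPRIM : Prop := ∀ (M : Type) (B : Type u) [MetricSpace M] [AddCommGroup B] (D : Coc M B)
    (K : Set (ℝ × ℝ)), Convex ℝ K → IsCompact K → ∀ H : ℝ × ℝ → M, ContinuousOn H K →
    (∀ z ∈ K, H z ∈ D.X) →
    ∃ η > 0, ∃ θ : ℝ × ℝ → B, ∀ z ∈ K, ∀ z' ∈ K, dist z z' < η →
      D.c (H z) (H z') = θ z' - θ z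

/-- VB: the value of a path can be computed from any primitive. -/
def StmVB : Prop := ∀ (M : Type) (B : Type u) [MetricSpace M] [AddCommGroup B] (D : Coc M B)
    (γ : ℝ → M) (θ : ℝ → B), ContinuousOn γ (Set.Icc 0 1) → (∀ t ∈ Set.Icc (0:ℝ) 1, γ t ∈ D.X) →
    IsPrim D γ θ → V D γ = θ 1 - θ 0

/-- VC: the value depends on the restriction of the path to `[0,1]` only. -/
def StmVC : Prop := ∀ (M : Type) (B : Type u) [MetricSpace M] [AddCommGroup B] (D : Coc M B)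
    (γ γ' : ℝ → M), Set.EqOn γ γ' (Set.Icc 0 1) → V D γ = V D γ'

/-- SEGS: reversal of a segment. -/
def StmSEGS : Prop := ∀ (M : Type) (B : Type u) [MetricSpace M] [AddCommGroup B] (D : Coc M B)
    (Ψ : ℝ × ℝ → M) (p q : ℝ × ℝ), ContinuousOn Ψ (segment ℝ p q) →
    (∀ z ∈ segment ℝ p q, Ψ z ∈ D.X) → seg D Ψ p q = - seg D Ψ q p

/-- SEGA: additivity along a segment. -/
def StmSEGA : Prop := ∀ (M : Type) (B : Type u) [MetricSpace M] [AddCommGroup B] (D : Coc M B)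
    (Ψ : ℝ × ℝ → M) (p q r : ℝ × ℝ), q ∈ segment ℝ p r → ContinuousOn Ψ (segment ℝ p r) →
    (∀ z ∈ segment ℝ p r, Ψ z ∈ D.X) → seg D Ψ p r = seg D Ψ p q + seg D Ψ q r

/-- BD0: a rectangle on which the map is continuous has boundary value zero. -/
def StmBD0 : Prop := ∀ (M : Type) (B : Type u) [MetricSpace M] [AddCommGroup B] (D : Coc M B)
    (Ψ : ℝ × ℝ → M) (a1 a2 b1 b2 : ℝ), (∀ b : B, b + b = 0) → a1 ≤ a2 → b1 ≤ b2 →
    ContinuousOn Ψ (Set.Icc a1 a2 ×ˢ Set.Icc b1 b2) →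
    (∀ z ∈ Set.Icc a1 a2 ×ˢ Set.Icc b1 b2, Ψ z ∈ D.X) → bd D Ψ a1 a2 b1 b2 = 0

/-- RECT: if all indeterminacy points inside a rectangle are good, its boundary value is zero. -/
def StmRECT : Prop := StmSEGS.{u} → StmSEGA.{u} → StmBD0.{u} →
    ∀ (M : Type) (B : Type u) [MetricSpace M] [AddCommGroup B] (D : Coc M B)
    (Ψ : ℝ × ℝ → M) (Z : Set (ℝ × ℝ)) (a1 a2 b1 b2 : ℝ), (∀ b : B, b + b = 0) → Adm D Ψ Z →
    a1 < a2 → b1 < b2 →
    (∀ z ∈ Z, z.1 ≠ a1 ∧ z.1 ≠ a2 ∧ z.2 ≠ b1 ∧ z.2 ≠ b2) →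
    (∀ w ∈ Z, a1 < w.1 → w.1 < a2 → b1 < w.2 → w.2 < b2 → Good D Ψ w) →
    bd D Ψ a1 a2 b1 b2 = 0

/-- BLOW: if all the points of the exceptional divisor are good, the origin is good. -/
def StmBLOW : Prop := StmVC.{u} → StmSEGS.{u} → StmRECT.{u} → StmSEGA.{u} → StmBD0.{u} →
    ∀ (M : Type) (B : Type u) [MetricSpace M] [AddCommGroup B] (D : Coc M B)
    (Ψ Ψ1 Ψ2 : ℝ × ℝ → M) (Z Z1 Z2 : Set (ℝ × ℝ)), (∀ b : B, b + b = 0) →
    Adm D Ψ Z → Adm D Ψ1 Z1 → Adm D Ψ2 Z2 →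
    (∀ u v : ℝ, u ≠ 0 → Ψ1 (u, v) = Ψ (u, u * v)) →
    (∀ u v : ℝ, u ≠ 0 → Ψ2 (u, v) = Ψ (u * v, u)) →
    (∀ v : ℝ, Good D Ψ1 (0, v)) → Good D Ψ2 (0, 0) → Good D Ψ 0

/-! ## Rational maps -/

/-- EVL: continuity off the indeterminacy set, and invariance under blow-up. -/
def StmEVL : Prop :=
  (∀ a : Pr, ContinuousOn (Evl a) (Ind a)ᶜ) ∧
  (∀ a a1 : Pr, IsBl a a1 → ∀ u v : ℝ, u ≠ 0 → Evl a1 (u, v) = Evl a (u, u * v)) ∧
  (∀ a : Pr, ∀ z : ℝ × ℝ, Evl (swp a) z = Evl a (z.2, z.1)) ∧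
  (∀ a : Pr, ∀ w z : ℝ × ℝ, Evl (shp w a) z = Evl a (w + z))

/-- CORE: every generic rectangle has boundary value zero. -/
def StmCORE : Prop := ∀ (B : Type u) [AddCommGroup B] (ι : Type) [Fintype ι] (f : ι → Pr)
    (D : Coc (ι → ℝ × ℝ) B) (a1 a2 b1 b2 : ℝ), (∀ b : B, b + b = 0) → (∀ i, RP (f i)) →
    (∀ z ∉ Bad f, Phi f z ∈ D.X) → a1 < a2 → b1 < b2 →
    (∀ z ∈ Bad f, z.1 ≠ a1 ∧ z.1 ≠ a2 ∧ z.2 ≠ b1 ∧ z.2 ≠ b2) →
    bd D (Phi f) a1 a2 b1 b2 = 0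

/-! ## The covering -/

universe v w x

/-- a covering space action of the discrete abelian group `G` on `E` with quotient map `π : E → K` -/
structure CovAct (G : Type v) (E : Type w) (K : Type x) [AddCommGroup G] [TopologicalSpace E]
    [TopologicalSpace K] [AddAction G E] (π : E → K) : Prop where
  cont : ∀ g : G, Continuous fun e : E => g +ᵥ e
  quot : IsOpenQuotientMap π
  fib : ∀ e e' : E, π e = π e' ↔ ∃ g : G, g +ᵥ e = e'
  cov : ∀ e : E, ∃ U : Set E, IsOpen U ∧ e ∈ U ∧ ∀ g : G, g ≠ 0 → ∀ x ∈ U, g +ᵥ x ∉ U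

/-- COV: the cocycle of a covering pulled back to a compact space, at a finite stage. -/
def StmCOV : Prop := ∀ (G : Type v) (E : Type w) (K : Type x) [AddCommGroup G]
    [TopologicalSpace E] [TopologicalSpace K] [AddAction G E] (π : E → K), CovAct G E K π →
    ∀ (Y : Type) [TopologicalSpace Y] [CompactSpace Y] [T2Space Y] (I : Type)
    (k : I → Y → ℝ × ℝ), (∀ i, Continuous (k i)) → (∀ x y, (∀ i, k i x = k i y) → x = y) →
    ∀ (h : C(Y, K)) (J0 : Finset I),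
    ∃ (e : Y → E) (J : Finset I) (δ : ℝ) (c : Y → Y → G), J0 ⊆ J ∧ 0 < δ ∧
      (∀ y, π (e y) = h y) ∧
      (∀ x y z, (∀ i ∈ J, dist (k i x) (k i y) < δ) → (∀ i ∈ J, dist (k i y) (k i z) < δ) →
        (∀ i ∈ J, dist (k i x) (k i z) < δ) → c x y + c y z = c x z) ∧
      (∀ (y : Y) (e0 : E) (a : G), e y = a +ᵥ e0 → ∃ O : Set E, IsOpen O ∧ e0 ∈ O ∧
        ∀ (y' : Y) (e' : E) (a' : G), (∀ i ∈ J, dist (k i y) (k i y') < δ) → e' ∈ O →
          e y' = a' +ᵥ e' → c y y' = a' - a)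

/-! ## The graphoid -/

/-- the field `ℝ(x, y)` -/
abbrev RF := FractionRing P2

/-- reduced numerator and denominator of a rational function -/
noncomputable def redPair (f : RF) : Pr := (IsFractionRing.num P2 f, (IsFractionRing.den P2 f : P2))

open Classical in
/-- the value in the projective line of a rational function -/
noncomputable def val (f : RF) (z : ℝ × ℝ) : OnePoint ℝ :=
  if ev (redPair f).2 z = 0 then OnePoint.infty
  else ((ev (redPair f).1 z / ev (redPair f).2 z : ℝ) : OnePoint ℝ)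

/-- the domain of a rational function -/
def dom (f : RF) : Set (ℝ × ℝ) := (Ind (redPair f))ᶜ

/-- the plane inside the torus -/
def emb (z : ℝ × ℝ) : OnePoint ℝ × OnePoint ℝ := ((z.1 : OnePoint ℝ), (z.2 : OnePoint ℝ))

/-- the graphoid of a family of rational functions -/
def Graphoid (F : Set RF) : Set ((OnePoint ℝ × OnePoint ℝ) × (F → OnePoint ℝ)) :=
  {p | ∀ O ∈ 𝓝 p.1, ∀ (E : Finset F) (U : F → Set (OnePoint ℝ)), (∀ f ∈ E, U f ∈ 𝓝 (p.2 f)) →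
    ∃ z' ∈ O, ∀ f ∈ E, ∃ w : ℝ × ℝ, emb w = z' ∧ w ∈ dom (f : RF) ∧ val (f : RF) w ∈ U f}

/-- the embedding of the projective line in the plane, `t ↦ (t²/(t²+1), t/(t²+1))`, `∞ ↦ (1,0)` -/
noncomputable def sP (t : OnePoint ℝ) : ℝ × ℝ :=
  t.elim (1, 0) (fun s : ℝ => (s ^ 2 / (s ^ 2 + 1), s / (s ^ 2 + 1)))

/-- GRA: compactness of the graphoid, existence of points over a point of the plane,
and computation of the coordinates at determinate points. -/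
def StmGRA : Prop := StmEVL → StmFINI → StmBEZ →
  (Continuous sP ∧ Function.Injective sP) ∧
  (∀ f : RF, RP (redPair f)) ∧
  (∀ f : RF, ∀ z ∈ dom f, sP (val f z) = Evl (redPair f) z) ∧
  (∀ F : Set RF, IsClosed (Graphoid F)) ∧
  (∀ F : Set RF, ∀ z : ℝ × ℝ, ∃ p ∈ Graphoid F, p.1 = emb z) ∧
  (∀ F : Set RF, ∀ z : ℝ × ℝ, ∀ p ∈ Graphoid F, p.1 = emb z → ∀ f : F, z ∈ dom (f : RF) →
    p.2 f = val (f : RF) z)

end Pool.Agent.H87.GR
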